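import Mathlib
import Pool.Agent.Helper278.TrAlg

/-!
In a C*-algebra with a faithful trace the norm of `x` is the norm of the left multiplication by `x`
in the 2-norm.
-/

set_option autoImplicit false

namespace Pool.Agent.W887.NS

open Pool.Agent.Helper278

theorem norm_le_of_n2 {A : Type} [CStarAlgebra A] {τ : A →ₗ[ℂ] ℂ} (h : TrAlg τ) (x : A) (C : ℝ)
    (hC : 0 ≤ C) (hx : ∀ y, n2 τ (x * y) ≤ C * n2 τ y) : ‖x‖ ≤ C := by
  let _ := CStarAlgebra.spectralOrder A
  let _ := CStarAlgebra.spectralOrderedRing A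
  set a : A := star x * x with ha
  have hsa : IsSelfAdjoint a := IsSelfAdjoint.star_mul_self x
  have hnn : 0 ≤ a := star_mul_self_nonneg x
  set f : ℝ → ℝ := fun t => max (t - C ^ 2) 0 with hf
  have hfc : Continuous f := by fun_prop
  set g : ℝ → ℝ := fun t => f t * Real.sqrt (f t) with hg
  have hgc : Continuous g := by fun_prop
  have hf0 : ∀ t, 0 ≤ f t := fun t => le_max_right _ _
  set y : A := cfc f a with hy
  set z : A := cfc g a with hz
  have hys : star y = y := (cfc_predicate f a : IsSelfAdjoint (cfc f a))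
  have hzs : star z = z := (cfc_predicate g a : IsSelfAdjoint (cfc g a))
  have e1 : y * a * y = cfc (fun t => f t * t * f t) a := by
    have h1 : a = cfc (fun t : ℝ => t) a := (cfc_id' ℝ a).symm
    conv_lhs => rw [hy]
    rw [cfc_mul (fun t => f t * t) f a, cfc_mul f (fun t => t) a, ← h1]
  have e2 : y * y = cfc (fun t => f t * f t) a := (cfc_mul f f a).symm
  have e3 : z * z = cfc (fun t => g t * g t) a := (cfc_mul g g a).symm
  have e4 : y * a * y - (C ^ 2) • (y * y) = z * z := by
    rw [e1, e2, e3, ← cfc_smul (C ^ 2) (fun t => f t * f t) a,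
      ← cfc_sub (fun t => f t * t * f t) (fun t => C ^ 2 • (f t * f t)) a]
    refine cfc_congr fun t _ => ?_
    show f t * t * f t - C ^ 2 • (f t * f t) = f t * Real.sqrt (f t) * (f t * Real.sqrt (f t))
    have h1 : Real.sqrt (f t) * Real.sqrt (f t) = f t := Real.mul_self_sqrt (hf0 t)
    have h2 : f t * (t - C ^ 2) = f t * f t := by
      rcases le_total (t - C ^ 2) 0 with h | h
      · have : f t = 0 := max_eq_right h
        rw [this]; ring
      · have : f t = t - C ^ 2 := max_eq_left h
        rw [this]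
    rw [smul_eq_mul]
    calc f t * t * f t - C ^ 2 * (f t * f t) = f t * (f t * (t - C ^ 2)) := by ring
      _ = f t * (f t * f t) := by rw [h2]
      _ = f t * f t * (Real.sqrt (f t) * Real.sqrt (f t)) := by rw [h1]; ring
      _ = _ := by ring
  have e5 : (τ (y * a * y)).re ≤ C ^ 2 * (τ (y * y)).re := by
    have h1 := hx y
    have h2 : n2 τ (x * y) ^ 2 ≤ (C * n2 τ y) ^ 2 :=
      pow_le_pow_left₀ (n2_nonneg _ _) h1 2
    rw [mul_pow, h.n2_sq, h.n2_sq, star_mul, hys] at h2
    have e : y * star x * (x * y) = y * a * y := by rw [ha]; simp only [mul_assoc]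
    rw [e] at h2
    exact h2
  have e6 : (τ (star z * z)).re ≤ 0 := by
    rw [hzs, ← e4, map_sub, Complex.sub_re]
    have h1 : τ ((C ^ 2) • (y * y)) = ((C ^ 2 : ℝ) : ℂ) * τ (y * y) := by
      rw [← Complex.coe_smul, map_smul, smul_eq_mul]
    rw [h1, Complex.re_ofReal_mul]
    linarith
  have e7 : z = 0 := by
    apply h.faithful
    have h1 := h.nonneg z
    rw [Complex.nonneg_iff] at h1
    exact Complex.ext (le_antisymm e6 h1.1) h1.2.symm
  have e8 : ∀ t ∈ spectrum ℝ a, t ≤ C ^ 2 := by
    intro t ht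
    have h1 : spectrum ℝ z = g '' spectrum ℝ a := cfc_map_spectrum g a
    rcases subsingleton_or_nontrivial A with hs | hs
    · rw [spectrum.of_subsingleton] at ht
      exact ht.elim
    · rw [e7, spectrum.zero_eq] at h1
      have h2 : g t ∈ ({0} : Set ℝ) := by rw [h1]; exact ⟨t, ht, rfl⟩
      have h3 : g t = 0 := h2
      by_contra hlt
      rw [not_le] at hlt
      have h4 : 0 < f t := lt_of_lt_of_le (sub_pos.2 hlt) (le_max_left _ _)
      have h5 : 0 < g t := mul_pos h4 (Real.sqrt_pos.2 h4)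
      exact h5.ne' h3
  have e9 : ‖a‖ ≤ C ^ 2 := by
    rw [CStarAlgebra.norm_le_iff_le_algebraMap a (sq_nonneg C) hnn]
    rw [le_algebraMap_iff_spectrum_le hsa]
    exact e8
  rw [ha, CStarRing.norm_star_mul_self] at e9
  exact abs_le_of_sq_le_sq' (by rw [sq]; exact e9) hC |>.2

end Pool.Agent.W887.NS
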