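import Mathlib
import Pool.Agent.H504R3.Base
import Pool.Agent.W887.NS.Gns

/-!
Pauli systems over an arbitrary index type.
-/

set_option autoImplicit false
set_option linter.unusedSectionVars false

namespace Pool.Agent.W887.NS

open Pool.Agent.Helper278
open Pool.Agent.Helper436.SM (sg sg_add sg_mul_self norm_sg star_sg)
open Pool.Agent.H504R3 (n2_one n2_smul)

/-- Pauli strings over the index type `I` -/
abbrev VI (I : Type) : Type := I →₀ (ZMod 2 × ZMod 2)

/-- the bilinear form `∑ v_i.2 w_i.1` -/
def bi {I : Type} (v w : VI I) : ZMod 2 := v.sum fun i a => a.2 * (w i).1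

section form

variable {I : Type}

theorem bi_add_left (u v w : VI I) : bi (u + v) w = bi u w + bi v w := by
  unfold bi
  refine Finsupp.sum_add_index' (fun i => ?_) (fun i a b => ?_)
  · simp
  · rw [Prod.snd_add, add_mul]

theorem bi_add_right (u v w : VI I) : bi u (v + w) = bi u v + bi u w := by
  unfold bi Finsupp.sum
  rw [← Finset.sum_add_distrib]
  refine Finset.sum_congr rfl (fun i _ => ?_)
  show (u i).2 * ((v + w) i).1 = (u i).2 * (v i).1 + (u i).2 * (w i).1
  rw [Finsupp.add_apply, Prod.fst_add, mul_add]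

theorem bi_zero_left (w : VI I) : bi 0 w = 0 := by
  unfold bi
  exact Finsupp.sum_zero_index

theorem bi_zero_right (w : VI I) : bi w 0 = 0 := by
  unfold bi Finsupp.sum
  refine Finset.sum_eq_zero (fun i _ => ?_)
  simp

theorem vi_add_self (v : VI I) : v + v = 0 := by
  ext i
  · simp [CharTwo.add_self_eq_zero]
  · simp [CharTwo.add_self_eq_zero]

theorem vi_add_eq_zero (s t : VI I) : s + t = 0 ↔ s = t := by
  constructor
  · intro h
    have : s + t + t = t := by rw [h, zero_add]
    rwa [add_assoc, vi_add_self, add_zero] at this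
  · rintro rfl
    exact vi_add_self s

theorem bi_map {K : Type} (e : K → I) (he : Function.Injective e) (v w : VI K) :
    bi (Finsupp.mapDomain e v) (Finsupp.mapDomain e w) = bi v w := by
  unfold bi
  rw [Finsupp.sum_mapDomain_index_inj he]
  refine Finsupp.sum_congr fun i _ => ?_
  rw [Finsupp.mapDomain_apply he]

end form

/-- A system of Pauli unitaries in a star algebra with a linear functional `τ`. -/
structure PS {I A : Type} [Ring A] [StarRing A] [Algebra ℂ A] (τ : A →ₗ[ℂ] ℂ)
    (W : VI I → A) : Prop where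
  zero : W 0 = 1
  mul : ∀ v w, W v * W w = sg (bi v w) • W (v + w)
  adj : ∀ v, star (W v) = sg (bi v v) • W v
  tone : τ 1 = 1
  trace : ∀ v, v ≠ 0 → τ (W v) = 0

section

variable {I K A : Type} [Ring A] [StarRing A] [Algebra ℂ A] [StarModule ℂ A] {τ : A →ₗ[ℂ] ℂ}
  {W : VI I → A}

theorem PS.pull (hW : PS τ W) {e : K → I} (he : Function.Injective e) :
    PS τ (fun v : VI K => W (Finsupp.mapDomain e v)) where
  zero := by rw [Finsupp.mapDomain_zero, hW.zero]
  mul v w := by rw [hW.mul, bi_map e he, Finsupp.mapDomain_add]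
  adj v := by rw [hW.adj, bi_map e he]
  tone := hW.tone
  trace v hv := hW.trace _ fun h =>
    hv (Finsupp.mapDomain_injective he (h.trans Finsupp.mapDomain_zero.symm))

theorem PS.star_mul_self (hW : PS τ W) (v : VI I) : star (W v) * W v = 1 := by
  rw [hW.adj, smul_mul_assoc, hW.mul, smul_smul, sg_mul_self, one_smul, vi_add_self, hW.zero]

theorem PS.mul_star_self (hW : PS τ W) (v : VI I) : W v * star (W v) = 1 := by
  rw [hW.adj, mul_smul_comm, hW.mul, smul_smul, sg_mul_self, one_smul, vi_add_self, hW.zero]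

theorem PS.on_self (hW : PS τ W) (s : VI I) : τ (star (W s) * W s) = 1 := by
  rw [hW.star_mul_self, hW.tone]

theorem PS.on_ne (hW : PS τ W) {s t : VI I} (hst : s ≠ t) : τ (star (W s) * W t) = 0 := by
  rw [hW.adj, smul_mul_assoc, hW.mul, smul_smul, map_smul,
    hW.trace _ fun h => hst ((vi_add_eq_zero s t).1 h), smul_zero]

end

/-- the pairs of corresponding elements of two Pauli systems over the same index type -/
def Rel {K A B : Type} [Ring A] [Algebra ℂ A] [Ring B] [Algebra ℂ B] (W : VI K → A)
    (V : VI K → B) (x : A) (y : B) : Prop :=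
  (x, y) ∈ Submodule.span ℂ (Set.range fun v => (W v, V v))

section

variable {K A B : Type} [Ring A] [StarRing A] [Algebra ℂ A] [StarModule ℂ A] {τ : A →ₗ[ℂ] ℂ}
  [Ring B] [StarRing B] [Algebra ℂ B] [StarModule ℂ B] {σ : B →ₗ[ℂ] ℂ}
  {W : VI K → A} {V : VI K → B}

theorem Rel.base (v : VI K) : Rel W V (W v) (V v) := Submodule.subset_span ⟨v, rfl⟩

theorem Rel.add {x x' : A} {y y' : B} (h : Rel W V x y) (h' : Rel W V x' y') :
    Rel W V (x + x') (y + y') := Submodule.add_mem _ h h'

theorem Rel.smul (c : ℂ) {x : A} {y : B} (h : Rel W V x y) : Rel W V (c • x) (c • y) :=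
  Submodule.smul_mem _ c h

theorem Rel.zero : Rel W V 0 0 := Submodule.zero_mem _

theorem Rel.one (hW : PS τ W) (hV : PS σ V) : Rel W V 1 1 := by
  rw [← hW.zero, ← hV.zero]
  exact Rel.base 0

theorem Rel.adj (hW : PS τ W) (hV : PS σ V) {x : A} {y : B} (h : Rel W V x y) :
    Rel W V (star x) (star y) := by
  have key : ∀ z ∈ Submodule.span ℂ (Set.range fun v => (W v, V v)),
      star z ∈ Submodule.span ℂ (Set.range fun v => (W v, V v)) := by
    intro z hz
    induction hz using Submodule.span_induction with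
    | mem z hz =>
      obtain ⟨v, rfl⟩ := hz
      have : star (W v, V v) = sg (bi v v) • (W v, V v) := by
        show (star (W v), star (V v)) = _
        rw [hW.adj, hV.adj]
        rfl
      rw [this]
      exact Submodule.smul_mem _ _ (Submodule.subset_span ⟨v, rfl⟩)
    | zero => rw [star_zero]; exact Submodule.zero_mem _
    | add a b _ _ ha hb => rw [star_add]; exact Submodule.add_mem _ ha hb
    | smul c a _ ha => rw [star_smul]; exact Submodule.smul_mem _ _ ha
  exact key _ h

theorem span_mul {C : Type} [Ring C] [Algebra ℂ C] {Q : VI K → C}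
    (hQ : ∀ v w, Q v * Q w = sg (bi v w) • Q (v + w)) {x y : C}
    (hx : x ∈ Submodule.span ℂ (Set.range Q)) (hy : y ∈ Submodule.span ℂ (Set.range Q)) :
    x * y ∈ Submodule.span ℂ (Set.range Q) := by
  induction hx using Submodule.span_induction with
  | mem x hx =>
    obtain ⟨v, rfl⟩ := hx
    induction hy using Submodule.span_induction with
    | mem y hy =>
      obtain ⟨w, rfl⟩ := hy
      rw [hQ]
      exact Submodule.smul_mem _ _ (Submodule.subset_span ⟨_, rfl⟩)
    | zero => rw [mul_zero]; exact Submodule.zero_mem _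
    | add a b _ _ ha hb => rw [mul_add]; exact Submodule.add_mem _ ha hb
    | smul r a _ ha => rw [mul_smul_comm]; exact Submodule.smul_mem _ _ ha
  | zero => rw [zero_mul]; exact Submodule.zero_mem _
  | add a b _ _ ha hb => rw [add_mul]; exact Submodule.add_mem _ ha hb
  | smul r a _ ha => rw [smul_mul_assoc]; exact Submodule.smul_mem _ _ ha

theorem Rel.mul (hW : PS τ W) (hV : PS σ V) {x x' : A} {y y' : B} (h : Rel W V x y)
    (h' : Rel W V x' y') : Rel W V (x * x') (y * y') := by
  have : ∀ v w, ((W v, V v) : A × B) * (W w, V w) = sg (bi v w) • (W (v + w), V (v + w)) := by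
    intro v w
    show (W v * W w, V v * V w) = _
    rw [hW.mul, hV.mul]
    rfl
  exact span_mul (Q := fun v => ((W v, V v) : A × B)) this h h'

theorem Rel.trace (hW : PS τ W) (hV : PS σ V) {x : A} {y : B} (h : Rel W V x y) : τ x = σ y := by
  have key : ∀ z ∈ Submodule.span ℂ (Set.range fun v => (W v, V v)), τ z.1 = σ z.2 := by
    intro z hz
    induction hz using Submodule.span_induction with
    | mem z hz =>
      obtain ⟨v, rfl⟩ := hz
      by_cases hv : v = 0
      · rw [hv]
        show τ (W 0) = σ (V 0)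
        rw [hW.zero, hV.zero, hW.tone, hV.tone]
      · show τ (W v) = σ (V v)
        rw [hW.trace v hv, hV.trace v hv]
    | zero => rw [Prod.fst_zero, Prod.snd_zero, map_zero, map_zero]
    | add a b _ _ ha hb => rw [Prod.fst_add, Prod.snd_add, map_add, map_add, ha, hb]
    | smul c a _ ha => rw [Prod.smul_fst, Prod.smul_snd, map_smul, map_smul, ha]
  exact key _ h

theorem Rel.n2 (hW : PS τ W) (hV : PS σ V) {x : A} {y : B} (h : Rel W V x y) :
    n2 τ x = n2 σ y := by
  unfold Helper278.n2
  rw [((h.adj hW hV).mul hW hV h).trace hW hV]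

theorem Rel.symm {x : A} {y : B} (h : Rel W V x y) : Rel V W y x := by
  have key : ∀ z ∈ Submodule.span ℂ (Set.range fun v => (W v, V v)),
      z.swap ∈ Submodule.span ℂ (Set.range fun v => (V v, W v)) := by
    intro z hz
    induction hz using Submodule.span_induction with
    | mem z hz =>
      obtain ⟨v, rfl⟩ := hz
      exact Submodule.subset_span ⟨v, rfl⟩
    | zero => exact Submodule.zero_mem _
    | add a b _ _ ha hb => exact Submodule.add_mem _ ha hb
    | smul c a _ ha => exact Submodule.smul_mem _ _ ha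
  exact key _ h

theorem Rel.exists_right {x : A} (hx : x ∈ Submodule.span ℂ (Set.range W)) (V : VI K → B) :
    ∃ y, Rel W V x y := by
  induction hx using Submodule.span_induction with
  | mem z hz =>
    obtain ⟨v, rfl⟩ := hz
    exact ⟨V v, Rel.base v⟩
  | zero => exact ⟨0, Rel.zero⟩
  | add a b _ _ ha hb =>
    obtain ⟨c, hc⟩ := ha
    obtain ⟨d, hd⟩ := hb
    exact ⟨c + d, hc.add hd⟩
  | smul c a _ ha =>
    obtain ⟨d, hd⟩ := ha
    exact ⟨c • d, hd.smul c⟩

theorem Rel.push {L : Type} {W : VI L → A} {V : VI L → B} (e : K → L) {x : A} {y : B}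
    (h : Rel (fun v : VI K => W (Finsupp.mapDomain e v)) (fun v => V (Finsupp.mapDomain e v)) x y) :
    Rel W V x y := by
  refine Submodule.span_mono ?_ h
  rintro _ ⟨v, rfl⟩
  exact ⟨Finsupp.mapDomain e v, rfl⟩

end

/-! ### operator norms -/

section

theorem n2_mul_le_left {A : Type} [CStarAlgebra A] {τ : A →ₗ[ℂ] ℂ} (h : TrAlg τ) (a b : A) :
    n2 τ (a * b) ≤ ‖a‖ * n2 τ b := by
  let _ := CStarAlgebra.spectralOrder A
  let _ := CStarAlgebra.spectralOrderedRing A
  have h1 : star a * a ≤ algebraMap ℝ A (‖a‖ ^ 2) := CStarAlgebra.star_mul_le_algebraMap_norm_sq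
  have h2 := star_left_conjugate_le_conjugate h1 b
  have h3 : star b * algebraMap ℝ A (‖a‖ ^ 2) * b = ((‖a‖ ^ 2 : ℝ) : ℂ) • (star b * b) := by
    have h4 : algebraMap ℝ A (‖a‖ ^ 2) = algebraMap ℂ A ((‖a‖ ^ 2 : ℝ) : ℂ) :=
      IsScalarTower.algebraMap_apply ℝ ℂ A (‖a‖ ^ 2)
    rw [h4, Algebra.algebraMap_eq_smul_one, mul_smul_comm, smul_mul_assoc, mul_one]
  have h5 : star b * (star a * a) * b = star (a * b) * (a * b) := by
    rw [star_mul]
    simp only [mul_assoc]
  rw [h3, h5, ← sub_nonneg, CStarAlgebra.nonneg_iff_eq_star_mul_self] at h2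
  obtain ⟨y, hy⟩ := h2
  have h6 := h.re_nonneg y
  rw [← hy, map_sub, map_smul, smul_eq_mul, Complex.sub_re, Complex.re_ofReal_mul, ← h.n2_sq,
    ← h.n2_sq] at h6
  refine abs_le_of_sq_le_sq' ?_ (mul_nonneg (norm_nonneg _) (n2_nonneg _ _)) |>.2
  rw [mul_pow]
  linarith

/-- the star algebra generated by a Pauli system -/
def spS {K A : Type} [Ring A] [StarRing A] [Algebra ℂ A] [StarModule ℂ A] {τ : A →ₗ[ℂ] ℂ}
    {W : VI K → A} (hW : PS τ W) : StarSubalgebra ℂ A where
  carrier := Submodule.span ℂ (Set.range W)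
  mul_mem' hx hy := span_mul hW.mul hx hy
  one_mem' := by
    have h : W 0 ∈ Submodule.span ℂ (Set.range W) := Submodule.subset_span ⟨0, rfl⟩
    rwa [hW.zero] at h
  add_mem' hx hy := Submodule.add_mem _ hx hy
  zero_mem' := Submodule.zero_mem _
  algebraMap_mem' c := by
    have h : W 0 ∈ Submodule.span ℂ (Set.range W) := Submodule.subset_span ⟨0, rfl⟩
    rw [hW.zero] at h
    rw [Algebra.algebraMap_eq_smul_one]
    exact Submodule.smul_mem _ _ h
  star_mem' := by
    intro x hx
    have hx' : x ∈ Submodule.span ℂ (Set.range W) := hx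
    show star x ∈ Submodule.span ℂ (Set.range W)
    induction hx' using Submodule.span_induction with
    | mem z hz =>
      obtain ⟨v, rfl⟩ := hz
      rw [hW.adj]
      exact Submodule.smul_mem _ _ (Submodule.subset_span ⟨v, rfl⟩)
    | zero => rw [star_zero]; exact Submodule.zero_mem _
    | add a b ha0 hb0 ha hb => rw [star_add]; exact Submodule.add_mem _ (ha ha0) (hb hb0)
    | smul c a ha0 ha => rw [star_smul]; exact Submodule.smul_mem _ _ (ha ha0)

end

end Pool.Agent.W887.NS
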