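import Mathlib
import Pool.Agent.W887.NS.Pauli

/-!
Operator norms and finite Pauli systems.
-/

set_option autoImplicit false
set_option linter.unusedSectionVars false

namespace Pool.Agent.W887.NS

open Pool.Agent.Helper278
open Pool.Agent.Helper436.SM (sg sg_add sg_mul_self norm_sg star_sg)
open Pool.Agent.H504R3 (n2_one n2_smul)

section

variable {K A B : Type} [CStarAlgebra A] [CStarAlgebra B] {τ : A →ₗ[ℂ] ℂ} {σ : B →ₗ[ℂ] ℂ}
  {W : VI K → A} {V : VI K → B}

theorem finite_VI (K : Type) [Finite K] : Finite (VI K) :=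
  Finite.of_equiv (K → ZMod 2 × ZMod 2) Finsupp.equivFunOnFinite.symm

/-- the pair of two Pauli systems -/
theorem PS.pair (hW : PS τ W) (hV : PS σ V) :
    PS (τ.comp (LinearMap.fst ℂ A B)) (fun v => ((W v, V v) : A × B)) where
  zero := by rw [hW.zero, hV.zero]; rfl
  mul v w := by
    show (W v * W w, V v * V w) = _
    rw [hW.mul, hV.mul]
    rfl
  adj v := by
    show (star (W v), star (V v)) = _
    rw [hW.adj, hV.adj]
    rfl
  tone := hW.tone
  trace v hv := hW.trace v hv

theorem isClosed_spS [Finite K] (hW : PS τ W) : IsClosed (spS hW : Set A) := by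
  have hf : Finite (VI K) := finite_VI K
  have : FiniteDimensional ℂ (Submodule.span ℂ (Set.range W)) :=
    FiniteDimensional.span_of_finite ℂ (Set.finite_range W)
  exact (Submodule.span ℂ (Set.range W)).closed_of_finiteDimensional

theorem norm_pair_fst [Finite K] (hW : PS τ W) (hV : PS σ V) (hτ : TrAlg τ) (hσ : TrAlg σ)
    {x : A} {y : B} (h : Rel W V x y) : ‖x‖ = ‖((x, y) : A × B)‖ := by
  have hcl := isClosed_spS (hW.pair hV)
  let _ : CStarAlgebra (spS (hW.pair hV)) := StarSubalgebra.cstarAlgebra (spS (hW.pair hV))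
  let f : (spS (hW.pair hV)) →⋆ₐ[ℂ] A := (StarAlgHom.fst ℂ A B).comp (spS (hW.pair hV)).subtype
  have hf : Function.Injective f := by
    rw [injective_iff_map_eq_zero]
    rintro ⟨⟨a, b⟩, hab⟩ h0
    have ha : a = 0 := h0
    have hr : Rel W V a b := hab
    have h2 := hr.n2 hW hV
    rw [ha, hτ.n2_zero] at h2
    have h3 : σ (star b * b) = 0 := by
      have h4 := hσ.n2_sq b
      rw [← h2] at h4
      refine Complex.ext ?_ ?_
      · rw [← h4]; simp
      · rw [hσ.im_zero]; rfl
    have hb : b = 0 := hσ.faithful b h3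
    subst ha; subst hb
    rfl
  exact NonUnitalStarAlgHom.norm_map f hf ⟨(x, y), h⟩

theorem Rel.norm [Finite K] (hW : PS τ W) (hV : PS σ V) (hτ : TrAlg τ) (hσ : TrAlg σ)
    {x : A} {y : B} (h : Rel W V x y) : ‖x‖ = ‖y‖ := by
  rw [norm_pair_fst hW hV hτ hσ h, norm_pair_fst hV hW hσ hτ h.symm, Prod.norm_def, Prod.norm_def,
    max_comm]

/-- the conditional expectation onto the span of a finite Pauli system -/
noncomputable def ce [Fintype (VI K)] (τ : A →ₗ[ℂ] ℂ) (W : VI K → A) (x : A) : A :=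
  ∑ v : VI K, τ (star (W v) * x) • W v

theorem ce_mem [Fintype (VI K)] (x : A) : ce τ W x ∈ Submodule.span ℂ (Set.range W) :=
  Submodule.sum_mem _ fun v _ => Submodule.smul_mem _ _ (Submodule.subset_span ⟨v, rfl⟩)

theorem ce_orth [Fintype (VI K)] (hW : PS τ W) (x : A) {d : A}
    (hd : d ∈ Submodule.span ℂ (Set.range W)) : τ (star d * (x - ce τ W x)) = 0 := by
  induction hd using Submodule.span_induction with
  | mem z hz =>
    obtain ⟨v, rfl⟩ := hz
    unfold ce
    rw [mul_sub, map_sub, Finset.mul_sum, map_sum, Finset.sum_eq_single v]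
    · rw [mul_smul_comm, map_smul, hW.on_self, smul_eq_mul, mul_one, sub_self]
    · intro w _ hwv
      rw [mul_smul_comm, map_smul, hW.on_ne (Ne.symm hwv), smul_zero]
    · intro h
      exact absurd (Finset.mem_univ v) h
  | zero => rw [star_zero, zero_mul, map_zero]
  | add a b _ _ ha hb => rw [star_add, add_mul, map_add, ha, hb, add_zero]
  | smul c a _ ha => rw [star_smul, smul_mul_assoc, map_smul, ha, smul_zero]

theorem pyth (h : TrAlg τ) {e r : A} (her : τ (star e * r) = 0) :
    n2 τ (e + r) ^ 2 = n2 τ e ^ 2 + n2 τ r ^ 2 := by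
  have her' : τ (star r * e) = 0 := by
    have h1 := h.conj (star e * r)
    rw [star_mul, star_star, her, star_zero] at h1
    exact h1
  rw [h.n2_sq, h.n2_sq, h.n2_sq]
  have e1 : star (e + r) * (e + r) = star e * e + star r * r + (star e * r + star r * e) := by
    rw [star_add]; noncomm_ring
  rw [e1, map_add, map_add, map_add, her, her']
  simp

theorem n2_sub_ce_le [Fintype (VI K)] (hW : PS τ W) (h : TrAlg τ) (x : A) {w : A}
    (hw : w ∈ Submodule.span ℂ (Set.range W)) : n2 τ (x - ce τ W x) ≤ n2 τ (x - w) := by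
  have h1 : τ (star (ce τ W x - w) * (x - ce τ W x)) = 0 :=
    ce_orth hW x (Submodule.sub_mem _ (ce_mem x) hw)
  have h2 := pyth h h1
  rw [show ce τ W x - w + (x - ce τ W x) = x - w by abel] at h2
  refine (pow_le_pow_iff_left₀ (n2_nonneg _ _) (n2_nonneg _ _) two_ne_zero).1 ?_
  rw [h2]
  linarith [sq_nonneg (n2 τ (ce τ W x - w))]

theorem norm_ce_le [Finite K] [Fintype (VI K)] (hW : PS τ W) (h : TrAlg τ) (x : A) :
    ‖ce τ W x‖ ≤ ‖x‖ := by
  have hcl := isClosed_spS hW
  let _ : CStarAlgebra (spS hW) := StarSubalgebra.cstarAlgebra (spS hW)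
  let σ : (spS hW) →ₗ[ℂ] ℂ := τ.comp (spS hW).subtype.toLinearMap
  have hσ : TrAlg σ :=
    ⟨h.one, fun x y => h.comm x y, fun x => h.nonneg x, fun x => h.conj x,
      fun x hx => Subtype.ext (h.faithful x hx)⟩
  refine norm_le_of_n2 hσ (⟨ce τ W x, ce_mem x⟩ : spS hW) ‖x‖ (norm_nonneg _) ?_
  rintro ⟨y, hy⟩
  show n2 τ (ce τ W x * y) ≤ ‖x‖ * n2 τ y
  refine le_trans ?_ (n2_mul_le_left h x y)
  have h1 : τ (star (ce τ W x * y) * ((x - ce τ W x) * y)) = 0 := by
    have h2 : τ (star (ce τ W x * y * star y) * (x - ce τ W x)) = 0 := by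
      refine ce_orth hW x ?_
      have hmem : ce τ W x * y * star y ∈ spS hW :=
        mul_mem (mul_mem (ce_mem x : ce τ W x ∈ spS hW) hy) (star_mem hy)
      exact hmem
    rw [star_mul, star_star, mul_assoc, h.comm] at h2
    rw [← mul_assoc]
    exact h2
  have h2 := pyth h h1
  rw [show ce τ W x * y + (x - ce τ W x) * y = x * y by rw [sub_mul]; abel] at h2
  refine (pow_le_pow_iff_left₀ (n2_nonneg _ _) (n2_nonneg _ _) two_ne_zero).1 ?_
  rw [h2]
  linarith [sq_nonneg (n2 τ ((x - ce τ W x) * y))]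

end

end Pool.Agent.W887.NS
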