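import Mathlib
import Pool.Agent.H504R3.ThB

/-!
Formulas are bounded and uniformly continuous for the 2-norm on the operator norm balls.
-/

set_option autoImplicit false
set_option linter.unusedSectionVars false

namespace Pool.Agent.W887.NS

open Pool.Agent.Helper278
open Pool.Agent.H504R3 (TVN n2_one n2_smul)
open Pool.Agent.H504R3.S

/-! ### suprema and infima -/

section

variable {ι κ : Type} [Nonempty ι] [Nonempty κ]

theorem abs_iSup_le {f : ι → ℝ} {B : ℝ} (h : ∀ i, |f i| ≤ B) : |⨆ i, f i| ≤ B := by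
  rw [abs_le]
  constructor
  · obtain ⟨i⟩ := ‹Nonempty ι›
    exact (abs_le.1 (h i)).1.trans (le_ciSup ⟨B, by rintro _ ⟨j, rfl⟩; exact (abs_le.1 (h j)).2⟩ i)
  · exact ciSup_le fun i => (abs_le.1 (h i)).2

theorem abs_iInf_le {f : ι → ℝ} {B : ℝ} (h : ∀ i, |f i| ≤ B) : |⨅ i, f i| ≤ B := by
  rw [abs_le]
  constructor
  · exact le_ciInf fun i => (abs_le.1 (h i)).1
  · obtain ⟨i⟩ := ‹Nonempty ι›
    exact (ciInf_le ⟨-B, by rintro _ ⟨j, rfl⟩; exact (abs_le.1 (h j)).1⟩ i).trans (abs_le.1 (h i)).2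

theorem iSup_near {f : ι → ℝ} {g : κ → ℝ} {B : ℝ} (hf : ∀ i, |f i| ≤ B) (hg : ∀ k, |g k| ≤ B)
    {ε : ℝ} (h1 : ∀ i, ∃ k, |f i - g k| ≤ ε) (h2 : ∀ k, ∃ i, |f i - g k| ≤ ε) :
    |(⨆ i, f i) - ⨆ k, g k| ≤ ε := by
  have bf : BddAbove (Set.range f) := ⟨B, by rintro _ ⟨j, rfl⟩; exact (abs_le.1 (hf j)).2⟩
  have bg : BddAbove (Set.range g) := ⟨B, by rintro _ ⟨j, rfl⟩; exact (abs_le.1 (hg j)).2⟩
  rw [abs_le]
  constructor
  · have : ⨆ k, g k ≤ (⨆ i, f i) + ε := by
      refine ciSup_le fun k => ?_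
      obtain ⟨i, hi⟩ := h2 k
      have h3 := le_ciSup bf i
      have h4 := (abs_le.1 hi).1
      linarith
    linarith
  · have : ⨆ i, f i ≤ (⨆ k, g k) + ε := by
      refine ciSup_le fun i => ?_
      obtain ⟨k, hk⟩ := h1 i
      have h3 := le_ciSup bg k
      have h4 := (abs_le.1 hk).2
      linarith
    linarith

theorem iInf_near {f : ι → ℝ} {g : κ → ℝ} {B : ℝ} (hf : ∀ i, |f i| ≤ B) (hg : ∀ k, |g k| ≤ B)
    {ε : ℝ} (h1 : ∀ i, ∃ k, |f i - g k| ≤ ε) (h2 : ∀ k, ∃ i, |f i - g k| ≤ ε) :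
    |(⨅ i, f i) - ⨅ k, g k| ≤ ε := by
  have bf : BddBelow (Set.range f) := ⟨-B, by rintro _ ⟨j, rfl⟩; exact (abs_le.1 (hf j)).1⟩
  have bg : BddBelow (Set.range g) := ⟨-B, by rintro _ ⟨j, rfl⟩; exact (abs_le.1 (hg j)).1⟩
  rw [abs_le]
  constructor
  · have : (⨅ k, g k) - ε ≤ ⨅ i, f i := by
      refine le_ciInf fun i => ?_
      obtain ⟨k, hk⟩ := h1 i
      have h3 := ciInf_le bg k
      have h4 := (abs_le.1 hk).1
      linarith
    linarith
  · have : (⨅ i, f i) - ε ≤ ⨅ k, g k := by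
      refine le_ciInf fun k => ?_
      obtain ⟨i, hi⟩ := h2 k
      have h3 := ciInf_le bf i
      have h4 := (abs_le.1 hi).2
      linarith
    linarith

end

/-! ### terms -/

section

variable (M : TVN)

theorem n2_le_norm (x : M.E) : n2 M.τ x ≤ M.opNorm x := by
  have h1 := (M.n2_mul_le x 1).1
  rwa [mul_one, n2_one M.trAlg, mul_one] at h1

theorem abs_re_le (x : M.E) : |(M.τ x).re| ≤ n2 M.τ x := by
  have h1 := M.trAlg.cauchy' 1 x
  rw [one_mul, n2_one M.trAlg, one_mul] at h1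
  exact (Complex.abs_re_le_norm _).trans h1

theorem abs_im_le (x : M.E) : |(M.τ x).im| ≤ n2 M.τ x := by
  have h1 := M.trAlg.cauchy' 1 x
  rw [one_mul, n2_one M.trAlg, one_mul] at h1
  exact (Complex.abs_im_le_norm _).trans h1

theorem abs_n2_sub_le (x y : M.E) : |n2 M.τ x - n2 M.τ y| ≤ n2 M.τ (x - y) := by
  have h := M.trAlg
  rw [abs_le]
  constructor
  · have h1 := h.n2_add_le (y - x) x
    rw [sub_add_cancel, h.n2_sub_comm] at h1
    linarith
  · have h1 := h.n2_add_le (x - y) y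
    rw [sub_add_cancel] at h1
    linarith

theorem tm_unif {V : Type} (t : Tm V) (R : ℝ) (hR : 0 ≤ R) : ∃ C L : ℝ, 0 ≤ C ∧ 0 ≤ L ∧
    (∀ x : V → M.E, (∀ v, M.opNorm (x v) ≤ R) → M.opNorm (tval M x t) ≤ C) ∧
    ∀ (δ : ℝ) (x y : V → M.E), 0 ≤ δ → (∀ v, M.opNorm (x v) ≤ R) → (∀ v, M.opNorm (y v) ≤ R) →
      (∀ v, n2 M.τ (x v - y v) ≤ δ) → n2 M.τ (tval M x t - tval M y t) ≤ L * δ := by
  have h := M.trAlg
  induction t with
  | var v =>
    refine ⟨R, 1, hR, zero_le_one, fun x hx => hx v, fun δ x y _ _ _ hd => ?_⟩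
    rw [one_mul]
    exact hd v
  | one =>
    refine ⟨1, 0, zero_le_one, le_rfl, fun x _ => ?_, fun δ x y _ _ _ _ => ?_⟩
    · exact ContinuousLinearMap.norm_id_le
    · show n2 M.τ ((1 : M.E) - 1) ≤ _
      rw [sub_self, h.n2_zero, zero_mul]
  | add s t hs ht =>
    obtain ⟨C1, L1, hC1, hL1, a1, b1⟩ := hs
    obtain ⟨C2, L2, hC2, hL2, a2, b2⟩ := ht
    refine ⟨C1 + C2, L1 + L2, by positivity, by positivity, fun x hx => ?_,
      fun δ x y hδ hx hy hd => ?_⟩
    · exact (norm_add_le _ _).trans (add_le_add (a1 x hx) (a2 x hx))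
    · show n2 M.τ ((tval M x s + tval M x t) - (tval M y s + tval M y t)) ≤ _
      rw [add_sub_add_comm, add_mul]
      exact (h.n2_add_le _ _).trans (add_le_add (b1 δ x y hδ hx hy hd) (b2 δ x y hδ hx hy hd))
  | mul s t hs ht =>
    obtain ⟨C1, L1, hC1, hL1, a1, b1⟩ := hs
    obtain ⟨C2, L2, hC2, hL2, a2, b2⟩ := ht
    refine ⟨C1 * C2, C1 * L2 + L1 * C2, by positivity, by positivity, fun x hx => ?_,
      fun δ x y hδ hx hy hd => ?_⟩
    · refine (norm_mul_le (tval M x s) (tval M x t)).trans ?_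
      exact mul_le_mul (a1 x hx) (a2 x hx) (norm_nonneg _) hC1
    · show n2 M.τ (tval M x s * tval M x t - tval M y s * tval M y t) ≤ _
      have e : tval M x s * tval M x t - tval M y s * tval M y t =
          tval M x s * (tval M x t - tval M y t) + (tval M x s - tval M y s) * tval M y t := by
        noncomm_ring
      rw [e]
      have h1 := (M.n2_mul_le (tval M x s) (tval M x t - tval M y t)).1
      have h2 := (M.n2_mul_le (tval M y t) (tval M x s - tval M y s)).2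
      have h3 := b1 δ x y hδ hx hy hd
      have h4 := b2 δ x y hδ hx hy hd
      have h5 : M.opNorm (tval M x s) * n2 M.τ (tval M x t - tval M y t) ≤ C1 * (L2 * δ) :=
        mul_le_mul (a1 x hx) h4 (n2_nonneg _ _) hC1
      have h6 : n2 M.τ (tval M x s - tval M y s) * M.opNorm (tval M y t) ≤ (L1 * δ) * C2 :=
        mul_le_mul h3 (a2 y hy) (norm_nonneg _) (by positivity)
      refine (h.n2_add_le _ _).trans ?_
      nlinarith
  | adj s hs =>
    obtain ⟨C1, L1, hC1, hL1, a1, b1⟩ := hs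
    refine ⟨C1, L1, hC1, hL1, fun x hx => ?_, fun δ x y hδ hx hy hd => ?_⟩
    · have : M.opNorm (star (tval M x s)) = M.opNorm (tval M x s) := norm_star (tval M x s)
      show M.opNorm (star (tval M x s)) ≤ C1
      rw [this]
      exact a1 x hx
    · show n2 M.τ (star (tval M x s) - star (tval M y s)) ≤ _
      rw [← star_sub, h.n2_star]
      exact b1 δ x y hδ hx hy hd
  | scal c s hs =>
    obtain ⟨C1, L1, hC1, hL1, a1, b1⟩ := hs
    refine ⟨‖c‖ * C1, ‖c‖ * L1, by positivity, by positivity, fun x hx => ?_,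
      fun δ x y hδ hx hy hd => ?_⟩
    · have : M.opNorm (c • tval M x s) = ‖c‖ * M.opNorm (tval M x s) := norm_smul c (tval M x s)
      show M.opNorm (c • tval M x s) ≤ _
      rw [this]
      exact mul_le_mul_of_nonneg_left (a1 x hx) (norm_nonneg _)
    · show n2 M.τ (c • tval M x s - c • tval M y s) ≤ _
      rw [← smul_sub, n2_smul h, mul_assoc]
      exact mul_le_mul_of_nonneg_left (b1 δ x y hδ hx hy hd) (norm_nonneg _)

theorem cons_le {n : ℕ} {R : ℝ} {r : ℕ} (y : (str M).Ball r) {x : Fin n → M.E}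
    (hx : ∀ i, M.opNorm (x i) ≤ R) (i : Fin (n + 1)) :
    M.opNorm ((Fin.cons y.1 x : Fin (n + 1) → M.E) i) ≤ max R r := by
  refine Fin.cases ?_ (fun k => ?_) i
  · exact le_trans y.2 (le_max_right _ _)
  · exact (hx k).trans (le_max_left _ _)

/-- formulas are bounded on balls -/
theorem fm_bdd {n : ℕ} (φ : Fm n) : ∀ R : ℝ, 0 ≤ R → ∃ B : ℝ, 0 ≤ B ∧
    ∀ x : Fin n → M.E, (∀ i, M.opNorm (x i) ≤ R) → |φ.val (str M) x| ≤ B := by
  induction φ with
  | re t =>
    intro R hR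
    obtain ⟨C, L, hC, _, a, _⟩ := tm_unif M t R hR
    exact ⟨C, hC, fun x hx => (abs_re_le M _).trans ((n2_le_norm M _).trans (a x hx))⟩
  | im t =>
    intro R hR
    obtain ⟨C, L, hC, _, a, _⟩ := tm_unif M t R hR
    exact ⟨C, hC, fun x hx => (abs_im_le M _).trans ((n2_le_norm M _).trans (a x hx))⟩
  | nrm t =>
    intro R hR
    obtain ⟨C, L, hC, _, a, _⟩ := tm_unif M t R hR
    refine ⟨C, hC, fun x hx => ?_⟩
    show |n2 M.τ (tval M x t)| ≤ C
    rw [abs_of_nonneg (n2_nonneg _ _)]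
    exact (n2_le_norm M _).trans (a x hx)
  | conn u φ ih =>
    intro R hR
    choose B hB0 hB using fun i => ih i R hR
    have hc : IsCompact (Set.pi Set.univ fun i => Set.Icc (-(B i)) (B i)) :=
      isCompact_univ_pi fun i => isCompact_Icc
    obtain ⟨C, hC⟩ := (hc.image u.continuous).isBounded.exists_norm_le
    refine ⟨max C 0, le_max_right _ _, fun x hx => ?_⟩
    refine (hC _ ⟨_, ?_, rfl⟩).trans (le_max_left _ _)
    intro i _
    exact abs_le.1 (hB i x hx)
  | sup r φ ih =>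
    intro R hR
    obtain ⟨B, hB0, hB⟩ := ih (max R r) (hR.trans (le_max_left _ _))
    refine ⟨B, hB0, fun x hx => ?_⟩
    have := ball_ne M r
    exact abs_iSup_le fun y => hB _ (cons_le M y hx)
  | inf r φ ih =>
    intro R hR
    obtain ⟨B, hB0, hB⟩ := ih (max R r) (hR.trans (le_max_left _ _))
    refine ⟨B, hB0, fun x hx => ?_⟩
    have := ball_ne M r
    exact abs_iInf_le fun y => hB _ (cons_le M y hx)

/-- formulas are uniformly continuous on balls -/
theorem fm_unif {n : ℕ} (φ : Fm n) : ∀ R : ℝ, 0 ≤ R → ∀ ε : ℝ, 0 < ε → ∃ δ : ℝ, 0 < δ ∧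
    ∀ x y : Fin n → M.E, (∀ i, M.opNorm (x i) ≤ R) → (∀ i, M.opNorm (y i) ≤ R) →
      (∀ i, n2 M.τ (x i - y i) ≤ δ) → |φ.val (str M) x - φ.val (str M) y| ≤ ε := by
  induction φ with
  | re t =>
    intro R hR ε hε
    obtain ⟨C, L, hC, hL, _, b⟩ := tm_unif M t R hR
    refine ⟨ε / (L + 1), by positivity, fun x y hx hy hd => ?_⟩
    have h1 := b (ε / (L + 1)) x y (by positivity) hx hy hd
    have h2 : L * (ε / (L + 1)) ≤ ε := by
      rw [← mul_div_assoc, div_le_iff₀ (by positivity)]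
      nlinarith
    show |(M.τ (tval M x t)).re - (M.τ (tval M y t)).re| ≤ ε
    rw [← Complex.sub_re, ← map_sub]
    exact (abs_re_le M _).trans (h1.trans h2)
  | im t =>
    intro R hR ε hε
    obtain ⟨C, L, hC, hL, _, b⟩ := tm_unif M t R hR
    refine ⟨ε / (L + 1), by positivity, fun x y hx hy hd => ?_⟩
    have h1 := b (ε / (L + 1)) x y (by positivity) hx hy hd
    have h2 : L * (ε / (L + 1)) ≤ ε := by
      rw [← mul_div_assoc, div_le_iff₀ (by positivity)]
      nlinarith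
    show |(M.τ (tval M x t)).im - (M.τ (tval M y t)).im| ≤ ε
    rw [← Complex.sub_im, ← map_sub]
    exact (abs_im_le M _).trans (h1.trans h2)
  | nrm t =>
    intro R hR ε hε
    obtain ⟨C, L, hC, hL, _, b⟩ := tm_unif M t R hR
    refine ⟨ε / (L + 1), by positivity, fun x y hx hy hd => ?_⟩
    have h1 := b (ε / (L + 1)) x y (by positivity) hx hy hd
    have h2 : L * (ε / (L + 1)) ≤ ε := by
      rw [← mul_div_assoc, div_le_iff₀ (by positivity)]
      nlinarith
    show |n2 M.τ (tval M x t) - n2 M.τ (tval M y t)| ≤ ε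
    exact (abs_n2_sub_le M _ _).trans (h1.trans h2)
  | @conn n k u φ ih =>
    intro R hR ε hε
    choose B hB0 hB using fun i => fm_bdd M (φ i) R hR
    have hc : IsCompact (Set.pi Set.univ fun i => Set.Icc (-(B i)) (B i)) :=
      isCompact_univ_pi fun i => isCompact_Icc
    have hu := hc.uniformContinuousOn_of_continuous u.continuous.continuousOn
    rw [Metric.uniformContinuousOn_iff_le] at hu
    obtain ⟨η, hη, hu⟩ := hu ε hε
    choose δ hδ0 hδ using fun i => ih i R hR η hη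
    obtain ⟨δ', hδ'0, hδ'⟩ : ∃ δ' : ℝ, 0 < δ' ∧ ∀ i, δ' ≤ δ i := by
      rcases isEmpty_or_nonempty (Fin k) with he | he
      · exact ⟨1, one_pos, fun i => he.elim i⟩
      · obtain ⟨i0, hi0⟩ := Finite.exists_min δ
        exact ⟨δ i0, hδ0 i0, hi0⟩
    refine ⟨δ', hδ'0, fun x y hx hy hd => ?_⟩
    refine hu _ (fun i _ => abs_le.1 (hB i x hx)) _ (fun i _ => abs_le.1 (hB i y hy)) ?_
    rw [dist_pi_le_iff hη.le]
    intro i
    exact hδ i x y hx hy fun k => (hd k).trans (hδ' i)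
  | sup r φ ih =>
    intro R hR ε hε
    have hR' : 0 ≤ max R r := hR.trans (le_max_left _ _)
    obtain ⟨B, hB0, hB⟩ := fm_bdd M φ (max R r) hR'
    obtain ⟨δ, hδ0, hδ⟩ := ih (max R r) hR' ε hε
    refine ⟨δ, hδ0, fun x y hx hy hd => ?_⟩
    have := ball_ne M r
    have hzz : ∀ z : M.E, n2 M.τ (z - z) ≤ δ := fun z => by
      rw [sub_self, M.trAlg.n2_zero]
      exact hδ0.le
    have key : ∀ c : (str M).Ball r,
        |φ.val (str M) (Fin.cons c.1 x) - φ.val (str M) (Fin.cons c.1 y)| ≤ ε := by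
      intro c
      refine hδ _ _ (cons_le M c hx) (cons_le M c hy) fun i => ?_
      refine Fin.cases ?_ (fun k => ?_) i
      · exact hzz c.1
      · exact hd k
    exact iSup_near (B := B) (fun c => hB _ (cons_le M c hx)) (fun c => hB _ (cons_le M c hy))
      (fun c => ⟨c, key c⟩) (fun c => ⟨c, key c⟩)
  | inf r φ ih =>
    intro R hR ε hε
    have hR' : 0 ≤ max R r := hR.trans (le_max_left _ _)
    obtain ⟨B, hB0, hB⟩ := fm_bdd M φ (max R r) hR'
    obtain ⟨δ, hδ0, hδ⟩ := ih (max R r) hR' ε hε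
    refine ⟨δ, hδ0, fun x y hx hy hd => ?_⟩
    have := ball_ne M r
    have hzz : ∀ z : M.E, n2 M.τ (z - z) ≤ δ := fun z => by
      rw [sub_self, M.trAlg.n2_zero]
      exact hδ0.le
    have key : ∀ c : (str M).Ball r,
        |φ.val (str M) (Fin.cons c.1 x) - φ.val (str M) (Fin.cons c.1 y)| ≤ ε := by
      intro c
      refine hδ _ _ (cons_le M c hx) (cons_le M c hy) fun i => ?_
      refine Fin.cases ?_ (fun k => ?_) i
      · exact hzz c.1
      · exact hd k
    exact iInf_near (B := B) (fun c => hB _ (cons_le M c hx)) (fun c => hB _ (cons_le M c hy))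
      (fun c => ⟨c, key c⟩) (fun c => ⟨c, key c⟩)

end

end Pool.Agent.W887.NS
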