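import Mathlib
import Pool.Agent.W887.NS.Norms
import Pool.Agent.W887.NS.Unif

/-!
The value of a formula at elements of finite Pauli systems depends only on their coordinates.
-/

set_option autoImplicit false
set_option linter.unusedSectionVars false

namespace Pool.Agent.W887.NS

open Pool.Agent.Helper278
open Pool.Agent.H504R3 (TVN n2_one n2_smul)
open Pool.Agent.H504R3.S

/-- `M` is generated by the Pauli system `W` -/
structure Gen (M : TVN) {I : Type} (W : VI I → M.E) : Prop where
  ps : PS M.τ W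
  dense : ∀ (x : M.E) (ε : ℝ), 0 < ε →
    ∃ w ∈ Submodule.span ℂ (Set.range W), n2 M.τ (x - w) < ε

/-- elements of the span have finite support -/
theorem exists_loc {A I : Type} [Ring A] [Algebra ℂ A] {W : VI I → A} {w : A}
    (hw : w ∈ Submodule.span ℂ (Set.range W)) :
    ∃ F : Finset I, ∀ {K : Type} (e : K → I), Function.Injective e → (∀ i ∈ F, i ∈ Set.range e) →
      w ∈ Submodule.span ℂ (Set.range fun v : VI K => W (Finsupp.mapDomain e v)) := by
  classical
  induction hw using Submodule.span_induction with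
  | mem z hz =>
    obtain ⟨v, rfl⟩ := hz
    refine ⟨v.support, fun {K} e he hF => Submodule.subset_span ⟨v.comapDomain e he.injOn, ?_⟩⟩
    show W _ = W v
    rw [Finsupp.mapDomain_comapDomain e he v fun i hi => hF i hi]
  | zero => exact ⟨∅, fun _ _ _ => Submodule.zero_mem _⟩
  | add a b _ _ ha hb =>
    obtain ⟨F, hF⟩ := ha
    obtain ⟨G, hG⟩ := hb
    exact ⟨F ∪ G, fun e he h => Submodule.add_mem _
      (hF e he fun i hi => h i (Finset.mem_union_left _ hi))
      (hG e he fun i hi => h i (Finset.mem_union_right _ hi))⟩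
  | smul c a _ ha =>
    obtain ⟨F, hF⟩ := ha
    exact ⟨F, fun e he h => Submodule.smul_mem _ _ (hF e he h)⟩

/-- embeddings of finite types into infinite types -/
theorem exists_emb (T J : Type) [Finite T] [Infinite J] : ∃ g : T → J, Function.Injective g := by
  obtain ⟨n, ⟨e⟩⟩ := Finite.exists_equiv_fin T
  exact ⟨fun t => Infinite.natEmbedding J (e t).1, fun s t h =>
    e.injective (Fin.ext ((Infinite.natEmbedding J).injective h))⟩

theorem extend_emb {I J K : Type} [Finite K] [Infinite J] (a : K → I) (b : K → J)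
    (ha : Function.Injective a) (hb : Function.Injective b) (F : Finset I) :
    ∃ (L : Type) (_ : Finite L) (e : K → L) (a' : L → I) (b' : L → J),
      Function.Injective a' ∧ Function.Injective b' ∧ (∀ k, a' (e k) = a k) ∧
      (∀ k, b' (e k) = b k) ∧ ∀ i ∈ F, i ∈ Set.range a' := by
  classical
  let T : Type := {i : I // i ∈ F ∧ i ∉ Set.range a}
  have hT : Finite T := Finite.of_injective (β := F) (fun t => ⟨t.1, t.2.1⟩) (fun s t h => by
    have : s.1 = t.1 := congrArg (fun z : F => z.1) h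
    exact Subtype.ext this)
  have hJ : Infinite {j : J // j ∉ Set.range b} :=
    (Set.Finite.infinite_compl (Set.finite_range b)).to_subtype
  obtain ⟨g, hg⟩ := exists_emb T {j : J // j ∉ Set.range b}
  refine ⟨K ⊕ T, inferInstance, Sum.inl, Sum.elim a (fun t => t.1), Sum.elim b (fun t => (g t).1),
    ?_, ?_, fun k => rfl, fun k => rfl, ?_⟩
  · rintro (k | t) (k' | t') h
    · exact congrArg _ (ha h)
    · exact absurd ⟨k, h⟩ t'.2.2
    · exact absurd ⟨k', h.symm⟩ t.2.2
    · exact congrArg _ (Subtype.ext h)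
  · rintro (k | t) (k' | t') h
    · exact congrArg _ (hb h)
    · exact absurd ⟨k, h⟩ (g t').2
    · exact absurd ⟨k', h.symm⟩ (g t).2
    · exact congrArg _ (hg (Subtype.ext h))
  · intro i hi
    by_cases h : i ∈ Set.range a
    · obtain ⟨k, hk⟩ := h
      exact ⟨Sum.inl k, hk⟩
    · exact ⟨Sum.inr ⟨i, hi, h⟩, rfl⟩

/-- the correspondence of elements given by two embeddings of a finite type -/
def RelE {M N : TVN} {I J K : Type} (W : VI I → M.E) (V : VI J → N.E) (a : K → I) (b : K → J)
    (x : M.E) (y : N.E) : Prop :=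
  Rel (fun v : VI K => W (Finsupp.mapDomain a v)) (fun v : VI K => V (Finsupp.mapDomain b v)) x y

theorem RelE.push {M N : TVN} {I J K L : Type} {W : VI I → M.E} {V : VI J → N.E} {a : K → I}
    {b : K → J} {a' : L → I} {b' : L → J} {e : K → L} (ha : ∀ k, a' (e k) = a k)
    (hb : ∀ k, b' (e k) = b k) {x : M.E} {y : N.E} (h : RelE W V a b x y) :
    RelE W V a' b' x y := by
  have e1 : a = a' ∘ e := funext fun k => (ha k).symm
  have e2 : b = b' ∘ e := funext fun k => (hb k).symm
  subst e1; subst e2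
  refine Rel.push e (W := fun v : VI L => W (Finsupp.mapDomain a' v))
    (V := fun v : VI L => V (Finsupp.mapDomain b' v)) ?_
  simp only [← Finsupp.mapDomain_comp]
  exact h

theorem RelE.symm {M N : TVN} {I J K : Type} {W : VI I → M.E} {V : VI J → N.E} {a : K → I}
    {b : K → J} {x : M.E} {y : N.E} (h : RelE W V a b x y) : RelE V W b a y x := Rel.symm h

/-- approximation of elements -/
theorem extend {M N : TVN} {I J K : Type} [Finite K] [Infinite J] {W : VI I → M.E}
    {V : VI J → N.E} (hM : Gen M W) (hN : Gen N V) (a : K → I) (b : K → J)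
    (ha : Function.Injective a) (hb : Function.Injective b) (c : M.E) (ε : ℝ) (hε : 0 < ε) :
    ∃ (L : Type) (_ : Finite L) (e : K → L) (a' : L → I) (b' : L → J),
      Function.Injective a' ∧ Function.Injective b' ∧ (∀ k, a' (e k) = a k) ∧
      (∀ k, b' (e k) = b k) ∧ ∃ (c' : M.E) (d : N.E), RelE W V a' b' c' d ∧
        M.opNorm c' ≤ M.opNorm c ∧ N.opNorm d ≤ M.opNorm c ∧ n2 M.τ (c - c') < ε := by
  obtain ⟨w, hw, hcw⟩ := hM.dense c ε hε
  obtain ⟨F, hF⟩ := exists_loc hw
  obtain ⟨L, hL, e, a', b', ha', hb', h1, h2, h3⟩ := extend_emb a b ha hb F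
  refine ⟨L, hL, e, a', b', ha', hb', h1, h2, ?_⟩
  have hfin : Finite (VI L) := finite_VI L
  let _ : Fintype (VI L) := Fintype.ofFinite _
  have hP := hM.ps.pull ha'
  have hQ := hN.ps.pull hb'
  set c' : M.E := ce M.τ (fun v : VI L => W (Finsupp.mapDomain a' v)) c with hc'
  obtain ⟨d, hd⟩ := Rel.exists_right (ce_mem (τ := M.τ)
    (W := fun v : VI L => W (Finsupp.mapDomain a' v)) c) (fun v : VI L => V (Finsupp.mapDomain b' v))
  have e1 : M.opNorm c' ≤ M.opNorm c := norm_ce_le hP M.trAlg c
  have e2 : M.opNorm c' = N.opNorm d := Rel.norm hP hQ M.trAlg N.trAlg hd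
  refine ⟨c', d, hd, e1, e2 ▸ e1, ?_⟩
  exact lt_of_le_of_lt (n2_sub_ce_le hP M.trAlg c (hF a' ha' h3)) hcw

theorem tm_rel {M N : TVN} {I J K X : Type} {W : VI I → M.E} {V : VI J → N.E} (hM : Gen M W)
    (hN : Gen N V) {a : K → I} {b : K → J} (ha : Function.Injective a)
    (hb : Function.Injective b) {x : X → M.E} {y : X → N.E} (h : ∀ i, RelE W V a b (x i) (y i)) :
    ∀ t : Tm X, RelE W V a b (tval M x t) (tval N y t)
  | .var v => h v
  | .one => Rel.one (hM.ps.pull ha) (hN.ps.pull hb)
  | .add s t => Rel.add (tm_rel hM hN ha hb h s) (tm_rel hM hN ha hb h t)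
  | .mul s t => Rel.mul (hM.ps.pull ha) (hN.ps.pull hb) (tm_rel hM hN ha hb h s)
      (tm_rel hM hN ha hb h t)
  | .adj s => Rel.adj (hM.ps.pull ha) (hN.ps.pull hb) (tm_rel hM hN ha hb h s)
  | .scal c s => Rel.smul c (tm_rel hM hN ha hb h s)

theorem exists_bound (M : TVN) {n : ℕ} (x : Fin n → M.E) :
    ∃ R : ℝ, 0 ≤ R ∧ ∀ i, M.opNorm (x i) ≤ R :=
  ⟨∑ i, M.opNorm (x i), Finset.sum_nonneg fun _ _ => norm_nonneg _, fun i =>
    Finset.single_le_sum (f := fun i => M.opNorm (x i)) (fun _ _ => norm_nonneg _)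
      (Finset.mem_univ i)⟩

/-- the matching of elements of balls -/
theorem match_one {n : ℕ} (φ : Fm (n + 1))
    (ih : ∀ {M N : TVN} {I J K : Type} [Infinite I] [Infinite J] [Finite K] {W : VI I → M.E}
      {V : VI J → N.E}, Gen M W → Gen N V → ∀ (a : K → I) (b : K → J), Function.Injective a →
      Function.Injective b → ∀ (x : Fin (n + 1) → M.E) (y : Fin (n + 1) → N.E),
      (∀ i, RelE W V a b (x i) (y i)) → φ.val (str M) x = φ.val (str N) y)
    {M N : TVN} {I J K : Type} [Infinite I] [Infinite J] [Finite K] {W : VI I → M.E}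
    {V : VI J → N.E} (hM : Gen M W) (hN : Gen N V) (a : K → I) (b : K → J)
    (ha : Function.Injective a) (hb : Function.Injective b) (x : Fin n → M.E) (y : Fin n → N.E)
    (h : ∀ i, RelE W V a b (x i) (y i)) (r : ℕ) (c : (str M).Ball r) (ε : ℝ) (hε : 0 < ε) :
    ∃ d : (str N).Ball r,
      |φ.val (str M) (Fin.cons c.1 x) - φ.val (str N) (Fin.cons d.1 y)| ≤ ε := by
  obtain ⟨R, hR, hx⟩ := exists_bound M x
  have hR' : 0 ≤ max R r := hR.trans (le_max_left _ _)
  obtain ⟨δ, hδ0, hδ⟩ := fm_unif M φ (max R r) hR' ε hε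
  obtain ⟨L, hL, e, a', b', ha', hb', h1, h2, c', d, hcd, h3, h4, h5⟩ :=
    extend hM hN a b ha hb (c.1 : M.E) δ hδ0
  have hcr : M.opNorm (c.1 : M.E) ≤ r := c.2
  refine ⟨⟨d, h4.trans hcr⟩, ?_⟩
  have e1 : φ.val (str M) (Fin.cons c' x) = φ.val (str N) (Fin.cons d y) := by
    refine ih hM hN a' b' ha' hb' _ _ fun i => ?_
    refine Fin.cases ?_ (fun k => ?_) i
    · exact hcd
    · exact RelE.push h1 h2 (h k)
  have e2 := hδ (Fin.cons c.1 x) (Fin.cons c' x) (cons_le M c hx)
    (cons_le M (⟨c', h3.trans hcr⟩ : (str M).Ball r) hx) fun i => by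
      refine Fin.cases ?_ (fun k => ?_) i
      · exact h5.le
      · show n2 M.τ (x k - x k) ≤ δ
        rw [sub_self, M.trAlg.n2_zero]
        exact hδ0.le
  refine le_of_eq_of_le ?_ e2
  exact congrArg (fun z => |φ.val (str M) (Fin.cons c.1 x) - z|) e1.symm

/-- The value of a formula only depends on the coordinates. -/
theorem inv {n : ℕ} (φ : Fm n) : ∀ {M N : TVN} {I J K : Type} [Infinite I] [Infinite J] [Finite K]
    {W : VI I → M.E} {V : VI J → N.E}, Gen M W → Gen N V → ∀ (a : K → I) (b : K → J),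
      Function.Injective a → Function.Injective b → ∀ (x : Fin n → M.E) (y : Fin n → N.E),
      (∀ i, RelE W V a b (x i) (y i)) → φ.val (str M) x = φ.val (str N) y := by
  induction φ with
  | re t =>
    intro M N I J K _ _ _ W V hM hN a b ha hb x y h
    exact congrArg Complex.re
      (Rel.trace (hM.ps.pull ha) (hN.ps.pull hb) (tm_rel hM hN ha hb h t))
  | im t =>
    intro M N I J K _ _ _ W V hM hN a b ha hb x y h
    exact congrArg Complex.im
      (Rel.trace (hM.ps.pull ha) (hN.ps.pull hb) (tm_rel hM hN ha hb h t))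
  | nrm t =>
    intro M N I J K _ _ _ W V hM hN a b ha hb x y h
    exact Rel.n2 (hM.ps.pull ha) (hN.ps.pull hb) (tm_rel hM hN ha hb h t)
  | conn u φ ih =>
    intro M N I J K _ _ _ W V hM hN a b ha hb x y h
    show (u fun i => (φ i).val (str M) x) = u fun i => (φ i).val (str N) y
    congr 1
    funext i
    exact ih i hM hN a b ha hb x y h
  | sup r φ ih =>
    intro M N I J K _ _ _ W V hM hN a b ha hb x y h
    obtain ⟨R, hR, hx⟩ := exists_bound M x
    obtain ⟨R', hR', hy⟩ := exists_bound N y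
    obtain ⟨B, hB0, hB⟩ := fm_bdd M φ (max R r) (hR.trans (le_max_left _ _))
    obtain ⟨B', hB0', hB'⟩ := fm_bdd N φ (max R' r) (hR'.trans (le_max_left _ _))
    have := ball_ne M r
    have := ball_ne N r
    refine eq_of_forall_dist_le fun ε hε => ?_
    rw [Real.dist_eq]
    refine iSup_near (B := max B B')
      (fun c => (hB _ (cons_le M c hx)).trans (le_max_left _ _))
      (fun c => (hB' _ (cons_le N c hy)).trans (le_max_right _ _)) (fun c => ?_) (fun d => ?_)
    · exact match_one φ ih hM hN a b ha hb x y h r c ε hε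
    · obtain ⟨c, hc⟩ := match_one φ ih hN hM b a hb ha y x (fun i => (h i).symm) r d ε hε
      exact ⟨c, by rw [abs_sub_comm]; exact hc⟩
  | inf r φ ih =>
    intro M N I J K _ _ _ W V hM hN a b ha hb x y h
    obtain ⟨R, hR, hx⟩ := exists_bound M x
    obtain ⟨R', hR', hy⟩ := exists_bound N y
    obtain ⟨B, hB0, hB⟩ := fm_bdd M φ (max R r) (hR.trans (le_max_left _ _))
    obtain ⟨B', hB0', hB'⟩ := fm_bdd N φ (max R' r) (hR'.trans (le_max_left _ _))
    have := ball_ne M r
    have := ball_ne N r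
    refine eq_of_forall_dist_le fun ε hε => ?_
    rw [Real.dist_eq]
    refine iInf_near (B := max B B')
      (fun c => (hB _ (cons_le M c hx)).trans (le_max_left _ _))
      (fun c => (hB' _ (cons_le N c hy)).trans (le_max_right _ _)) (fun c => ?_) (fun d => ?_)
    · exact match_one φ ih hM hN a b ha hb x y h r c ε hε
    · obtain ⟨c, hc⟩ := match_one φ ih hN hM b a hb ha y x (fun i => (h i).symm) r d ε hε
      exact ⟨c, by rw [abs_sub_comm]; exact hc⟩

/-- algebras generated by infinite Pauli systems are elementarily equivalent -/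
theorem elemEq {M N : TVN} {I J : Type} [Infinite I] [Infinite J] {W : VI I → M.E}
    {V : VI J → N.E} (hM : Gen M W) (hN : Gen N V) : (str M).ElemEq (str N) := by
  intro φ
  exact inv φ hM hN (K := Empty) (fun k => k.elim) (fun k => k.elim) (fun k => k.elim)
    (fun k => k.elim) _ _ (fun i => i.elim0)

/-- partial injections of the coordinates preserve the values of formulas -/
theorem inv_single {M : TVN} {I : Type} [Infinite I] {W : VI I → M.E} (hM : Gen M W) {n : ℕ}
    (φ : Fm n) (c : Fin n → ZMod 2 × ZMod 2) (g h : Fin n → I) (hgh : ∀ k l, g k = g l ↔ h k = h l) :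
    φ.val (str M) (fun k => W (Finsupp.single (g k) (c k))) =
      φ.val (str M) (fun k => W (Finsupp.single (h k) (c k))) := by
  classical
  let K : Type := Set.range g
  let b : K → I := fun k => h k.2.choose
  have hb : ∀ k : Fin n, b ⟨g k, ⟨k, rfl⟩⟩ = h k := by
    intro k
    have h1 : g (Exists.choose (⟨k, rfl⟩ : ∃ y, g y = g k)) = g k :=
      Exists.choose_spec (⟨k, rfl⟩ : ∃ y, g y = g k)
    exact (hgh _ _).1 h1
  have hbi : Function.Injective b := by
    rintro ⟨_, k, rfl⟩ ⟨_, l, rfl⟩ hkl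
    rw [hb, hb] at hkl
    exact Subtype.ext ((hgh k l).2 hkl)
  refine inv φ hM hM (K := K) (fun k => k.1) b Subtype.val_injective hbi _ _ fun k => ?_
  have h1 : RelE W W (fun k : K => k.1) b
      (W (Finsupp.mapDomain (fun k : K => k.1) (Finsupp.single ⟨g k, ⟨k, rfl⟩⟩ (c k))))
      (W (Finsupp.mapDomain b (Finsupp.single ⟨g k, ⟨k, rfl⟩⟩ (c k)))) :=
    Rel.base (W := fun v : VI K => W (Finsupp.mapDomain (fun k : K => k.1) v))
      (V := fun v : VI K => W (Finsupp.mapDomain b v)) _
  rw [Finsupp.mapDomain_single, Finsupp.mapDomain_single, hb] at h1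
  exact h1

end Pool.Agent.W887.NS
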