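import Mathlib
import Pool.Agent.Helper278.CEStd
import Pool.Agent.Helper278.GroupVN
import Pool.Agent.Helper133.OP.Xexistswop
import Pool.Agent.W887.NS.Inv

/-!
A tracial von Neumann algebra generated by a Pauli system over an arbitrary index type.
-/

set_option autoImplicit false
set_option linter.unusedSectionVars false

open scoped InnerProductSpace ComplexOrder ComplexConjugate
open Filter Topology

namespace Pool.Agent.W887.NS

open Pool.Agent.Helper278 hiding sg
open Pool.Agent.Helper436.SM (sg sg_add sg_mul_self norm_sg star_sg)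
open Pool.Agent.H504R3 (TVN n2_one n2_smul)
open Pool.Agent.Helper133.OP (exists_wop)

variable {I K : Type} [NormedAddCommGroup K] [InnerProductSpace ℂ K] [CompleteSpace K]
  (b : HilbertBasis (VI I) ℂ K)

theorem conj_sg (a : ZMod 2) : conj (sg a) = sg a := star_sg a

theorem sg_zero : sg 0 = 1 := by
  unfold Helper436.SM.sg
  rw [if_pos rfl]

/-- left translations -/
noncomputable def la (v : VI I) : K →L[ℂ] K :=
  (exists_wop b (fun h => sg (bi v h)) (fun _ => norm_sg _) (Equiv.addLeft v)).choose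

/-- right translations -/
noncomputable def rh (v : VI I) : K →L[ℂ] K :=
  (exists_wop b (fun h => sg (bi h v)) (fun _ => norm_sg _) (Equiv.addRight v)).choose

theorem la_basis (v h : VI I) : la b v (b h) = sg (bi v h) • b (v + h) :=
  (exists_wop b (fun h => sg (bi v h)) (fun _ => norm_sg _) (Equiv.addLeft v)).choose_spec.1 h

theorem rh_basis (v h : VI I) : rh b v (b h) = sg (bi h v) • b (h + v) :=
  (exists_wop b (fun h => sg (bi h v)) (fun _ => norm_sg _) (Equiv.addRight v)).choose_spec.1 h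

theorem add_cancel' (v h : VI I) : v + (v + h) = h := by
  rw [← add_assoc, vi_add_self, zero_add]

theorem add_cancel'' (v h : VI I) : h + v + v = h := by
  rw [add_assoc, vi_add_self, add_zero]

theorem star_la_basis (v h : VI I) : (star (la b v)) (b h) = sg (bi v (v + h)) • b (v + h) := by
  have h1 := (exists_wop b (fun h => sg (bi v h)) (fun _ => norm_sg _)
    (Equiv.addLeft v)).choose_spec.2 (v + h)
  rw [conj_sg] at h1
  have h2 : (Equiv.addLeft v) (v + h) = h := add_cancel' v h
  rw [h2] at h1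
  exact h1

theorem star_rh_basis (v h : VI I) : (star (rh b v)) (b h) = sg (bi (h + v) v) • b (h + v) := by
  have h1 := (exists_wop b (fun h => sg (bi h v)) (fun _ => norm_sg _)
    (Equiv.addRight v)).choose_spec.2 (h + v)
  rw [conj_sg] at h1
  have h2 : (Equiv.addRight v) (h + v) = h := add_cancel'' v h
  rw [h2] at h1
  exact h1

theorem la_mul (v w : VI I) : la b v * la b w = sg (bi v w) • la b (v + w) := by
  apply ext_basis b
  intro k
  show la b v (la b w (b k)) = sg (bi v w) • la b (v + w) (b k)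
  rw [la_basis, map_smul, la_basis, la_basis, smul_smul, smul_smul, ← sg_add, ← sg_add,
    bi_add_right, bi_add_left, ← add_assoc v w k]
  congr 2
  abel

theorem la_zero : la b 0 = 1 := by
  apply ext_basis b
  intro k
  rw [la_basis, bi_zero_left, sg_zero, one_smul, zero_add]
  rfl

theorem star_la (v : VI I) : star (la b v) = sg (bi v v) • la b v := by
  apply ext_basis b
  intro k
  show star (la b v) (b k) = sg (bi v v) • la b v (b k)
  rw [star_la_basis, la_basis, smul_smul, ← sg_add, bi_add_right]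

theorem la_rh (v w : VI I) : la b v * rh b w = rh b w * la b v := by
  apply ext_basis b
  intro k
  show la b v (rh b w (b k)) = rh b w (la b v (b k))
  rw [la_basis, rh_basis, map_smul, map_smul, la_basis, rh_basis, smul_smul, smul_smul,
    ← sg_add, ← sg_add, bi_add_right, bi_add_left, add_assoc v k w]
  congr 2
  abel

/-- the twisted group von Neumann algebra -/
noncomputable def LW : VonNeumannAlgebra K := vnGen (Set.range (la b))

theorem mem_LW (z : K →L[ℂ] K) : z ∈ LW b ↔
    ∀ t ∈ StarSubalgebra.centralizer ℂ (Set.range (la b)), t * z = z * t ∧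
      star t * z = z * star t :=
  StarSubalgebra.mem_centralizer_iff (R := ℂ)

theorem mem_comm (t : K →L[ℂ] K) :
    t ∈ StarSubalgebra.centralizer ℂ (Set.range (la b)) ↔
      ∀ v : VI I, la b v * t = t * la b v := by
  rw [StarSubalgebra.mem_centralizer_iff (R := ℂ)]
  constructor
  · intro h v
    exact (h _ ⟨v, rfl⟩).1
  · rintro h _ ⟨v, rfl⟩
    refine ⟨h v, ?_⟩
    rw [star_la, smul_mul_assoc, mul_smul_comm, h v]

theorem sg_ne (a : ZMod 2) : sg a ≠ 0 := by
  intro h
  have := norm_sg a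
  rw [h, norm_zero] at this
  exact zero_ne_one this

theorem la_mem (v : VI I) : la b v ∈ LW b := by
  rw [mem_LW]
  intro t ht
  have ht' := (mem_comm b t).1 ht
  refine ⟨(ht' v).symm, ?_⟩
  have h1 := congrArg star (ht' v)
  rw [star_mul, star_mul, star_la, mul_smul_comm, smul_mul_assoc] at h1
  exact smul_right_injective _ (sg_ne (bi v v)) h1

theorem comm_rh (x : K →L[ℂ] K) (hx : x ∈ LW b) (v : VI I) : rh b v * x = x * rh b v := by
  rw [mem_LW] at hx
  exact (hx (rh b v) ((mem_comm b _).2 fun w => la_rh b w v)).1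

/-- the canonical trace -/
noncomputable def trW : (LW b).toStarSubalgebra →ₗ[ℂ] ℂ where
  toFun x := ⟪b 0, (x : K →L[ℂ] K) (b 0)⟫_ℂ
  map_add' x y := by
    show ⟪b 0, (x : K →L[ℂ] K) (b 0) + (y : K →L[ℂ] K) (b 0)⟫_ℂ = _
    rw [inner_add_right]
  map_smul' c x := by
    show ⟪b 0, c • (x : K →L[ℂ] K) (b 0)⟫_ℂ = _
    rw [inner_smul_right]
    rfl

theorem coef_W (x : K →L[ℂ] K) (hx : x ∈ LW b) (h k : VI I) :
    ⟪b k, x (b h)⟫_ℂ = sg (bi (k + h) h) * ⟪b (k + h), x (b 0)⟫_ℂ := by
  have h1 : b h = rh b h (b 0) := by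
    rw [rh_basis, bi_zero_left, sg_zero, one_smul, zero_add]
  have h2 := congrArg (fun z : K →L[ℂ] K => z (b 0)) (comm_rh b x hx h)
  have h3 : rh b h (x (b 0)) = x (rh b h (b 0)) := h2
  rw [← h1] at h3
  rw [← h3]
  have h6 : ⟪b k, rh b h (x (b 0))⟫_ℂ = ⟪(star (rh b h)) (b k), x (b 0)⟫_ℂ := by
    rw [ContinuousLinearMap.star_eq_adjoint, ContinuousLinearMap.adjoint_inner_left]
  rw [h6, star_rh_basis, inner_smul_left, conj_sg]

theorem star_coef_W (x : K →L[ℂ] K) (hx : x ∈ LW b) (h : VI I) :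
    ⟪b h, (star x) (b 0)⟫_ℂ = conj (sg (bi h h) * ⟪b h, x (b 0)⟫_ℂ) := by
  rw [ContinuousLinearMap.star_eq_adjoint, ContinuousLinearMap.adjoint_inner_right,
    ← inner_conj_symm, coef_W b x hx h 0, zero_add]

theorem trW_mul (x y : (LW b).toStarSubalgebra) :
    HasSum (fun h => sg (bi h h) * ⟪b h, (x : K →L[ℂ] K) (b 0)⟫_ℂ *
      ⟪b h, (y : K →L[ℂ] K) (b 0)⟫_ℂ) (trW b (x * y)) := by
  have h1 : trW b (x * y) = ⟪(star (x : K →L[ℂ] K)) (b 0), (y : K →L[ℂ] K) (b 0)⟫_ℂ := by
    rw [ContinuousLinearMap.star_eq_adjoint, ContinuousLinearMap.adjoint_inner_left]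
    rfl
  rw [h1]
  refine (b.hasSum_inner_mul_inner ((star (x : K →L[ℂ] K)) (b 0))
    ((y : K →L[ℂ] K) (b 0))).congr_fun ?_
  intro h
  rw [← inner_conj_symm ((star (x : K →L[ℂ] K)) (b 0)) (b h), star_coef_W b _ x.2,
    Complex.conj_conj]

theorem trW_comm (x y : (LW b).toStarSubalgebra) : trW b (x * y) = trW b (y * x) := by
  refine (trW_mul b x y).unique ((trW_mul b y x).congr_fun fun h => ?_)
  ring

theorem trW_star_mul' (x y : (LW b).toStarSubalgebra) :
    trW b (star x * y) = ⟪(x : K →L[ℂ] K) (b 0), (y : K →L[ℂ] K) (b 0)⟫_ℂ := by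
  rw [← ContinuousLinearMap.adjoint_inner_right, ← ContinuousLinearMap.star_eq_adjoint]
  rfl

theorem n2_W (x : (LW b).toStarSubalgebra) : n2 (trW b) x = ‖(x : K →L[ℂ] K) (b 0)‖ := by
  unfold n2
  rw [trW_star_mul', inner_self_eq_norm_sq_to_K]
  have : (((‖(x : K →L[ℂ] K) (b 0)‖ : ℂ)) ^ 2).re = ‖(x : K →L[ℂ] K) (b 0)‖ ^ 2 := by
    rw [← Complex.ofReal_pow, Complex.ofReal_re]
  exact (congrArg Real.sqrt this).trans (Real.sqrt_sq (norm_nonneg _))

theorem faithful_W (x : (LW b).toStarSubalgebra) (hx : trW b (star x * x) = 0) : x = 0 := by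
  rw [trW_star_mul', inner_self_eq_zero] at hx
  apply Subtype.ext
  apply ext_basis b
  intro g
  apply ext_coef b
  intro k
  rw [coef_W b x x.2, hx]
  show _ = ⟪b k, (0 : K →L[ℂ] K) (b g)⟫_ℂ
  simp

/-- the tracial von Neumann algebra -/
noncomputable def TW : TVN where
  H := K
  N := LW b
  τ := trW b
  map_one := inner_bb_self b 0
  tracial := trW_comm b
  faithful := faithful_W b
  normal := by
    refine ⟨fun k => Nat.casesOn k (b 0) (fun _ => 0), ?_, ?_⟩
    · refine summable_of_ne_finset_zero (s := {0}) ?_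
      intro k hk
      cases k with
      | zero => simp at hk
      | succ n => simp
    · intro x
      rw [tsum_eq_single 0]
      · rfl
      · intro k hk
        cases k with
        | zero => simp at hk
        | succ n => simp

/-- the canonical unitaries -/
noncomputable def wv (v : VI I) : (LW b).toStarSubalgebra := ⟨la b v, la_mem b v⟩

theorem wv_basis (v : VI I) : ((wv b v : (LW b).toStarSubalgebra) : K →L[ℂ] K) (b 0) = b v := by
  show la b v (b 0) = b v
  rw [la_basis, bi_zero_right, sg_zero, one_smul, add_zero]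

theorem ps_W : PS (trW b) (wv b) where
  zero := Subtype.ext (la_zero b)
  mul v w := Subtype.ext (la_mul b v w)
  adj v := Subtype.ext (star_la b v)
  tone := inner_bb_self b 0
  trace v hv := by
    show ⟪b 0, ((wv b v : (LW b).toStarSubalgebra) : K →L[ℂ] K) (b 0)⟫_ℂ = 0
    rw [wv_basis]
    exact inner_bb b 0 v (Ne.symm hv)

theorem ev_sum (F : Finset (VI I)) (c : VI I → ℂ) :
    ((∑ v ∈ F, c v • wv b v : (LW b).toStarSubalgebra) : K →L[ℂ] K) (b 0) =
      ∑ v ∈ F, c v • b v := by
  classical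
  induction F using Finset.induction_on with
  | empty => rw [Finset.sum_empty, Finset.sum_empty]; rfl
  | insert a F ha ih =>
    rw [Finset.sum_insert ha, Finset.sum_insert ha, ← ih]
    show c a • (wv b a : K →L[ℂ] K) (b 0) + _ = _
    rw [wv_basis]
    rfl

theorem dense_W0 (k : K) (ε : ℝ) (hε : 0 < ε) :
    ∃ (F : Finset (VI I)) (c : VI I → ℂ), ‖k - ∑ v ∈ F, c v • b v‖ < ε := by
  classical
  have h1 := b.hasSum_repr k
  unfold HasSum at h1
  rw [SummationFilter.unconditional_filter] at h1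
  obtain ⟨F, hF⟩ := (h1.eventually (Metric.ball_mem_nhds k hε)).exists
  refine ⟨F, fun v => b.repr k v, ?_⟩
  rw [dist_comm, dist_eq_norm] at hF
  exact hF

theorem dense_W (x : (LW b).toStarSubalgebra) (ε : ℝ) (hε : 0 < ε) :
    ∃ w ∈ Submodule.span ℂ (Set.range (wv b)), n2 (trW b) (x - w) < ε := by
  obtain ⟨F, c, hF⟩ := dense_W0 b ((x : K →L[ℂ] K) (b 0)) ε hε
  refine ⟨∑ v ∈ F, c v • wv b v, Submodule.sum_mem _ fun v _ =>
    Submodule.smul_mem _ _ (Submodule.subset_span ⟨v, rfl⟩), ?_⟩
  rw [← ev_sum] at hF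
  rw [n2_W b]
  exact hF

theorem gen_W : Gen (TW b) (wv b) where
  ps := ps_W b
  dense := dense_W b

/-- tracial von Neumann algebras generated by Pauli systems exist over every index type -/
theorem exists_gen (I : Type) : ∃ (M : TVN) (W : VI I → M.E), Gen M W :=
  ⟨_, _, gen_W (default : HilbertBasis (VI I) ℂ (lp (fun _ : VI I => ℂ) 2))⟩

end Pool.Agent.W887.NS
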