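import Mathlib
import Pool.Agent.H504R3.SDefs

/-!
# Types, indiscernible sequences, dividing and simplicity in the continuous logic of tracial von
Neumann algebras

Structures (`Str`), tracial von Neumann algebras (`Str.IsTVN`), the hyperfinite II_1 factor
(`Str.IsHyperfinite`), formulas (`Fm`, quantifiers range over operator norm balls) and elementary
equivalence (`Str.ElemEq`) are those of `Pool.Agent.H504R3.SDefs`. As usual, the monster model is
avoided: a type over a set `B` of elements of a model `M` is given by the values of the formulas with
parameters from `B`; it is realised in an elementary extension of `M` exactly if it is finitely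
approximately realised in `M`.
-/

set_option autoImplicit false

namespace Pool.Agent.W887.NS

open Pool.Agent.H504R3.S

/-- `j` is an elementary embedding of `M` into `N`: it preserves the values of all formulas. -/
def IsElementary (M N : Str) (j : M.carrier → N.carrier) : Prop :=
  ∀ (n : ℕ) (φ : Fm n) (x : Fin n → M.carrier), φ.val N (fun i => j (x i)) = φ.val M x

/-- A formula `φ(x, b_1, …, b_n)` in one variable `x` with parameters from `B`. -/
def PFm (B : Type) : Type := Σ n : ℕ, Fm (n + 1) × (Fin n → B)

/-- The value of `φ(c, b_1, …, b_n)` in `N` when the parameter `b` is interpreted by `v b`. -/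
noncomputable def PFm.val {B : Type} (q : PFm B) (N : Str) (v : B → N.carrier)
    (c : N.carrier) : ℝ :=
  q.2.1.val N (Fin.cons c fun i => v (q.2.2 i))

/-- `p` (the value which the type assigns to every formula with parameters from `B`) is a complete
type over the set `B` of elements of `M`, in the sort of the operator norm ball of radius `r`: every
finite part of `p` is approximately realised in `M`. -/
def IsType (M : Str) (r : ℕ) (B : Set M.carrier) (p : PFm B → ℝ) : Prop :=
  ∀ (L : List (PFm B)) (ε : ℝ), 0 < ε →
    ∃ c : M.Ball r, ∀ q ∈ L, |q.val M Subtype.val c.1 - p q| < ε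

/-- The sequence `b_0, b_1, …` of `B`-indexed tuples of elements of `N` is indiscernible over `A`:
the value of a formula with parameters from `A` at finitely many entries of `b_{i_0}, b_{i_1}, …`,
`i_0 < i_1 < …`, is the same as at the same entries of `b_0, b_1, …`. -/
def Indiscernible (N : Str) {B : Type} (b : ℕ → B → N.carrier) (A : Set N.carrier) : Prop :=
  ∀ i : ℕ → ℕ, StrictMono i → ∀ (n : ℕ) (φ : Fm n) (s : Fin n → (ℕ × B) ⊕ A),
    φ.val N (fun k => Sum.elim (fun t => b (i t.1) t.2) Subtype.val (s k)) =
      φ.val N (fun k => Sum.elim (fun t => b t.1 t.2) Subtype.val (s k))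

/-- The union of the `p(x, b_i)`, `i ∈ ℕ`, is consistent (with the theory of `N`): every finite part
of it is approximately realised in `N`. -/
def Consistent (N : Str) (r : ℕ) {B : Type} (p : PFm B → ℝ) (b : ℕ → B → N.carrier) : Prop :=
  ∀ (L : List (ℕ × PFm B)) (ε : ℝ), 0 < ε →
    ∃ c : N.Ball r, ∀ q ∈ L, |q.2.val N (b q.1) c.1 - p q.2| < ε

/-- The type `p` over `B` divides over `A`: in some elementary extension `N` of `M` (a tracial von
Neumann algebra) there is an `A`-indiscernible sequence `b_0, b_1, …` whose first term `b_0` is `B`
itself, such that the union of the `p(x, b_i)` is inconsistent. -/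
def Divides (M : Str) (r : ℕ) (B : Set M.carrier) (p : PFm B → ℝ) (A : Set M.carrier) : Prop :=
  ∃ (N : Str) (j : M.carrier → N.carrier) (b : ℕ → B → N.carrier), N.IsTVN ∧
    IsElementary M N j ∧ (∀ β : B, b 0 β = j β) ∧ Indiscernible N b (j '' A) ∧
    ¬ Consistent N r p b

/-- The set `A` is separable: it has a countable 2-norm dense subset. -/
def Separable (M : Str) (A : Set M.carrier) : Prop :=
  ∃ D ⊆ A, D.Countable ∧ ∀ a ∈ A, ∀ ε : ℝ, 0 < ε → ∃ d ∈ D, M.norm2 (M.sub a d) < ε

/-- The continuous theory of `R` is simple: every type `p` over a set `B` (of elements of a tracial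
von Neumann algebra `M` elementarily equivalent to `R`) does not divide over some separable subset
of `B`. -/
def IsSimple (R : Str) : Prop :=
  ∀ M : Str, M.IsTVN → M.ElemEq R → ∀ (r : ℕ) (B : Set M.carrier) (p : PFm B → ℝ),
    IsType M r B p → ∃ A ⊆ B, Separable M A ∧ ¬ Divides M r B p A

end Pool.Agent.W887.NS
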