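import Mathlib
import Pool.Agent.H504R3.PauliM
import Pool.Agent.W887.NS.Inv

/-!
Unitaries that swap two coordinates, and the hyperfinite factor as a Pauli system.
-/

set_option autoImplicit false
set_option linter.unusedSectionVars false

namespace Pool.Agent.W887.NS

open Pool.Agent.Helper278
open Pool.Agent.Helper436.SM (sg sg_add sg_mul_self norm_sg star_sg)
open Pool.Agent.H504R3 (TVN n2_one n2_smul flip_alg flip_star_alg adjoin_le pauliSys Ws Cmm)
open Pool.Agent.H504R3.S

/-! ### the hyperfinite factor -/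

theorem gen_hyp (R : TVN) (hR : R.IsHyperfinite) : ∃ W : VI ℕ → R.E, Gen R W := by
  obtain ⟨j, hc, hd⟩ := hR
  have h := pauliSys (j := j) hc R.trAlg
  refine ⟨Ws j, ⟨⟨h.zero, h.mul, h.star, R.trAlg.one, fun v hv => ?_⟩, fun x ε hε => ?_⟩⟩
  · have := h.trace v
    rwa [if_neg hv] at this
  · obtain ⟨y, hy, hxy⟩ := hd x ε hε
    obtain ⟨F, c, rfl⟩ := adjoin_le hc y hy
    exact ⟨_, Submodule.sum_mem _ fun v _ => Submodule.smul_mem _ _ (Submodule.subset_span ⟨v, rfl⟩),
      hxy⟩

/-! ### single coordinates -/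

section

variable {I A : Type} [Ring A] [StarRing A] [Algebra ℂ A] [StarModule ℂ A] {τ : A →ₗ[ℂ] ℂ}
  {W : VI I → A}

theorem bi_single (p : I) (c : ZMod 2 × ZMod 2) (v : VI I) :
    bi (Finsupp.single p c) v = c.2 * (v p).1 := by
  unfold bi
  rw [Finsupp.sum_single_index]
  simp

theorem one_ne'' : (1 : ZMod 2) ≠ 0 := by decide

theorem PS.comm_single (hW : PS τ W) {p q : I} (hpq : p ≠ q) (c d : ZMod 2 × ZMod 2) :
    W (Finsupp.single p c) * W (Finsupp.single q d) =
      W (Finsupp.single q d) * W (Finsupp.single p c) := by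
  rw [hW.mul, hW.mul, bi_single, bi_single, Finsupp.single_eq_of_ne hpq,
    Finsupp.single_eq_of_ne hpq.symm, add_comm]
  simp

/-- `X_p` -/
noncomputable def px (W : VI I → A) (p : I) : A := W (Finsupp.single p (1, 0))

/-- `Z_p` -/
noncomputable def pz (W : VI I → A) (p : I) : A := W (Finsupp.single p (0, 1))

theorem single_sq (hW : PS τ W) (p : I) (c : ZMod 2 × ZMod 2) (hc : c.2 * c.1 = 0) :
    W (Finsupp.single p c) * W (Finsupp.single p c) = 1 := by
  rw [hW.mul, bi_single, Finsupp.single_eq_same, hc, vi_add_self, hW.zero]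
  simp [Helper436.SM.sg]

theorem single_adj (hW : PS τ W) (p : I) (c : ZMod 2 × ZMod 2) (hc : c.2 * c.1 = 0) :
    star (W (Finsupp.single p c)) = W (Finsupp.single p c) := by
  rw [hW.adj, bi_single, Finsupp.single_eq_same, hc]
  simp [Helper436.SM.sg]

theorem px_sq (hW : PS τ W) (p : I) : px W p * px W p = 1 := single_sq hW p _ (by simp)

theorem pz_sq (hW : PS τ W) (p : I) : pz W p * pz W p = 1 := single_sq hW p _ (by simp)

theorem px_adj (hW : PS τ W) (p : I) : star (px W p) = px W p := single_adj hW p _ (by simp)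

theorem pz_adj (hW : PS τ W) (p : I) : star (pz W p) = pz W p := single_adj hW p _ (by simp)

theorem pz_px (hW : PS τ W) (p : I) : pz W p * px W p = -(px W p * pz W p) := by
  unfold pz px
  rw [hW.mul, hW.mul, bi_single, bi_single, Finsupp.single_eq_same, Finsupp.single_eq_same,
    add_comm]
  simp [Helper436.SM.sg]

/-- the swap of the coordinates `p` and `q` -/
noncomputable def swp (W : VI I → A) (p q : I) : A :=
  (2⁻¹ : ℂ) • (1 + px W p * px W q + pz W p * pz W q - px W p * pz W p * px W q * pz W q)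

theorem swp_props (hW : PS τ W) {p q : I} (hpq : p ≠ q) :
    swp W p q * swp W p q = 1 ∧ star (swp W p q) = swp W p q ∧
    swp W p q * pz W p = pz W q * swp W p q := by
  have c1 : px W q * px W p = px W p * px W q := hW.comm_single hpq.symm _ _
  have c2 : px W q * pz W p = pz W p * px W q := hW.comm_single hpq.symm _ _
  have c3 : pz W q * px W p = px W p * pz W q := hW.comm_single hpq.symm _ _
  have c4 : pz W q * pz W p = pz W p * pz W q := hW.comm_single hpq.symm _ _
  obtain ⟨h1, h2, h3⟩ := flip_alg (x := px W p) (z := pz W p) (x' := px W q) (z' := pz W q)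
    (px_sq hW p) (pz_sq hW p) (pz_px hW p) (px_sq hW q) (pz_sq hW q) (pz_px hW q) c1 c2 c3 c4
  refine ⟨?_, ?_, ?_⟩
  · unfold swp
    rw [smul_mul_smul_comm, h1, smul_smul]
    norm_num
  · unfold swp
    have e := flip_star_alg (x := px W p) (z := pz W p) (x' := px W q) (z' := pz W q)
      (pz_px hW p) (pz_px hW q) c1 c2 c3 c4
    rw [star_smul, star_sub, star_add, star_add, star_one, star_mul, star_mul, star_mul, star_mul,
      star_mul, px_adj hW, px_adj hW, pz_adj hW, pz_adj hW, e, c1, c4]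
    congr 1
    simp
  · unfold swp
    rw [smul_mul_assoc, h3, mul_smul_comm]

theorem swp_comm (hW : PS τ W) {p q k : I} (hp : k ≠ p) (hq : k ≠ q) :
    swp W p q * pz W k = pz W k * swp W p q := by
  have c1 : px W p * pz W k = pz W k * px W p := hW.comm_single hp.symm _ _
  have c2 : px W q * pz W k = pz W k * px W q := hW.comm_single hq.symm _ _
  have c3 : pz W p * pz W k = pz W k * pz W p := hW.comm_single hp.symm _ _
  have c4 : pz W q * pz W k = pz W k * pz W q := hW.comm_single hq.symm _ _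
  have m : ∀ {a b : A}, a * pz W k = pz W k * a → b * pz W k = pz W k * b →
      a * b * pz W k = pz W k * (a * b) := by
    intro a b ha hb
    rw [mul_assoc, hb, ← mul_assoc, ha, mul_assoc]
  unfold swp
  rw [smul_mul_assoc, mul_smul_comm, sub_mul, mul_sub, add_mul, mul_add, add_mul, mul_add, one_mul,
    mul_one, m c1 c2, m c3 c4, m (m (m c1 c3) c2) c4]

/-- a unitary that swaps finitely many pairs of coordinates -/
theorem exists_swaps {κ : Type} {W : VI (κ × ℕ) → A} (hW : PS τ W) (F : Finset κ) :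
    ∃ u : A, star u * u = 1 ∧ u * star u = 1 ∧ (∀ k ∈ F, u * pz W (k, 0) = pz W (k, 1) * u) ∧
      ∀ k ∉ F, u * pz W (k, 0) = pz W (k, 0) * u := by
  classical
  induction F using Finset.induction_on with
  | empty =>
    exact ⟨1, by simp, by simp, fun k hk => absurd hk (Finset.notMem_empty k), fun k _ => by
      rw [one_mul, mul_one]⟩
  | insert i F hi ih =>
    obtain ⟨u, h1, h2, h3, h4⟩ := ih
    have hne : ((i, 0) : κ × ℕ) ≠ (i, 1) := fun h => by simp at h
    obtain ⟨s1, s2, s3⟩ := swp_props hW hne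
    have s4 : ∀ k, k ≠ i → ∀ m, swp W (i, 0) (i, 1) * pz W (k, m) =
        pz W (k, m) * swp W (i, 0) (i, 1) := fun k hk m =>
      swp_comm hW (fun h => hk (Prod.ext_iff.1 h).1) (fun h => hk (Prod.ext_iff.1 h).1)
    refine ⟨swp W (i, 0) (i, 1) * u, ?_, ?_, ?_, ?_⟩
    · rw [star_mul, s2, mul_assoc, ← mul_assoc (swp W (i, 0) (i, 1)), s1, one_mul, h1]
    · rw [star_mul, s2, mul_assoc, ← mul_assoc u, h2, one_mul, s1]
    · intro k hk
      rcases Finset.mem_insert.1 hk with rfl | hk
      · rw [mul_assoc, h4 k hi, ← mul_assoc, s3, mul_assoc]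
      · have hki : k ≠ i := fun h => hi (h ▸ hk)
        rw [mul_assoc, h3 k hk, ← mul_assoc, s4 k hki, mul_assoc]
    · intro k hk
      rw [Finset.mem_insert, not_or] at hk
      rw [mul_assoc, h4 k hk.2, ← mul_assoc, s4 k hk.1, mul_assoc]

end

theorem pz_dist {M : TVN} {I : Type} {W : VI I → M.E} (hW : PS M.τ W) {p q : I} (hpq : p ≠ q) :
    n2 M.τ (pz W p - pz W q) ^ 2 = 2 := by
  have hne : (Finsupp.single p ((0, 1) : ZMod 2 × ZMod 2) : VI I) ≠ Finsupp.single q (0, 1) := by
    intro h
    have h1 := DFunLike.congr_fun h p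
    rw [Finsupp.single_eq_same, Finsupp.single_eq_of_ne hpq] at h1
    exact one_ne'' (Prod.ext_iff.1 h1).2
  rw [M.trAlg.n2_sq, star_sub, sub_mul, mul_sub, mul_sub]
  unfold pz
  rw [map_sub, map_sub, map_sub, hW.on_self, hW.on_self, hW.on_ne hne, hW.on_ne hne.symm]
  norm_num

theorem pz_inj {M : TVN} {I : Type} {W : VI I → M.E} (hW : PS M.τ W) {p q : I}
    (h : pz W p = pz W q) : p = q := by
  by_contra hpq
  have h1 := pz_dist hW hpq
  rw [h, sub_self, M.trAlg.n2_zero] at h1
  norm_num at h1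

end Pool.Agent.W887.NS
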