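import Mathlib
import Pool.Agent.W887.NS.Defs
import Pool.Agent.W887.NS.Conc
import Pool.Agent.W887.NS.Swap

/-!
The theory of the hyperfinite II_1 factor is not simple.
-/

set_option autoImplicit false
set_option linter.unusedSectionVars false

open Filter Topology

namespace Pool.Agent.W887.NS

open Pool.Agent.Helper278
open Pool.Agent.H504R3 (TVN n2_one n2_smul)
open Pool.Agent.H504R3.S

section

variable {κ : Type} {M : TVN} {W : VI (κ × ℕ) → M.E}

/-- the parameters -/
def BB (W : VI (κ × ℕ) → M.E) : Set M.E :=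
  {z | ∃ k : κ, z = pz W (k, 0) ∨ z = pz W (k, 1)}

/-- the value of a formula with parameters -/
noncomputable def pv {B : Type} (M : TVN) (v : B → M.E) (c : M.E) (q : PFm B) : ℝ :=
  q.val (str M) v c

/-- the swap unitaries -/
noncomputable def sw (hW : PS M.τ W) (F : Finset κ) : M.E := (exists_swaps hW F).choose

theorem sw_props (hW : PS M.τ W) (F : Finset κ) :
    star (sw hW F) * sw hW F = 1 ∧ sw hW F * star (sw hW F) = 1 ∧
      ∀ k ∈ F, sw hW F * pz W (k, 0) = pz W (k, 1) * sw hW F :=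
  ⟨(exists_swaps hW F).choose_spec.1, (exists_swaps hW F).choose_spec.2.1,
    (exists_swaps hW F).choose_spec.2.2.1⟩

theorem sw_norm (hW : PS M.τ W) (F : Finset κ) : M.opNorm (sw hW F) ≤ 1 :=
  opNorm_unitary M (sw_props hW F).1

/-- the ultrafilter -/
noncomputable def uf (κ : Type) : Ultrafilter (Finset κ) := by
  classical
  exact Ultrafilter.of atTop

theorem uf_mem (k : κ) : ∀ᶠ F in (uf κ : Filter (Finset κ)), k ∈ F := by
  classical
  have h1 : ∀ᶠ F in (atTop : Filter (Finset κ)), k ∈ F := by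
    refine (eventually_ge_atTop {k}).mono fun F hF => hF (Finset.mem_singleton_self k)
  exact (Ultrafilter.of_le (atTop : Filter (Finset κ))) h1

theorem exists_lim (hW : PS M.τ W) (q : PFm (BB W)) : ∃ y : ℝ,
    Tendsto (fun F => pv M Subtype.val (sw hW F) q) (uf κ) (𝓝 y) := by
  obtain ⟨R, hR, hx⟩ := exists_bound M (fun i => (q.2.2 i).1)
  obtain ⟨B, hB0, hB⟩ := fm_bdd M q.2.1 (max R 1) (hR.trans (le_max_left _ _))
  have h1 : ∀ F, pv M Subtype.val (sw hW F) q ∈ Set.Icc (-B) B := by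
    intro F
    refine abs_le.1 (hB _ fun i => ?_)
    refine Fin.cases ?_ (fun k => ?_) i
    · exact (sw_norm hW F).trans (le_max_right _ _)
    · exact (hx k).trans (le_max_left _ _)
  obtain ⟨y, _, hy⟩ := (isCompact_Icc (a := -B) (b := B)).ultrafilter_le_nhds
    ((uf κ).map fun F => pv M Subtype.val (sw hW F) q) (by
      rw [Filter.le_principal_iff, Ultrafilter.coe_map, Filter.mem_map]
      exact Filter.univ_mem' h1)
  exact ⟨y, hy⟩

/-- the type -/
noncomputable def tp (hW : PS M.τ W) (q : PFm (BB W)) : ℝ := (exists_lim hW q).choose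

theorem tp_tendsto (hW : PS M.τ W) (q : PFm (BB W)) :
    Tendsto (fun F => pv M Subtype.val (sw hW F) q) (uf κ) (𝓝 (tp hW q)) :=
  (exists_lim hW q).choose_spec

theorem tp_zero (hW : PS M.τ W) (q : PFm (BB W))
    (h : ∀ᶠ F in (uf κ : Filter (Finset κ)), pv M Subtype.val (sw hW F) q = 0) :
    tp hW q = 0 :=
  tendsto_nhds_unique (tp_tendsto hW q) ((tendsto_const_nhds (x := (0 : ℝ))).congr'
    (h.mono fun _ hF => hF.symm))

theorem tp_isType (hW : PS M.τ W) : IsType (str M) 1 (BB W) (tp hW) := by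
  intro L ε hε
  have h1 : ∀ᶠ F in (uf κ : Filter (Finset κ)), ∀ q ∈ {q | q ∈ L},
      |pv M Subtype.val (sw hW F) q - tp hW q| < ε := by
    rw [eventually_all_finite (List.finite_toSet L)]
    intro q _
    have h2 := (tp_tendsto hW q).eventually (Metric.ball_mem_nhds _ hε)
    exact h2
  obtain ⟨F, hF⟩ := h1.exists
  refine ⟨⟨sw hW F, ?_⟩, fun q hq => hF q hq⟩
  have := sw_norm hW F
  show M.opNorm (sw hW F) ≤ ((1 : ℕ) : ℝ)
  rwa [Nat.cast_one]

/-- the formula `‖x x* - 1‖₂` -/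
def qU (B : Type) : PFm B :=
  ⟨0, .nrm (.add (.mul (.var 0) (.adj (.var 0))) (.scal (-1) .one)), Fin.elim0⟩

/-- the formula `‖x a - b x‖₂` -/
def qC {B : Type} (a b : B) : PFm B :=
  ⟨2, .nrm (.add (.mul (.var 0) (.var 1)) (.scal (-1) (.mul (.var 2) (.var 0)))), ![a, b]⟩

theorem qU_val {B : Type} (v : B → M.E) (c : M.E) :
    pv M v c (qU B) = n2 M.τ (c * star c - 1) := by
  show n2 M.τ (c * star c + (-1 : ℂ) • (1 : M.E)) = _
  rw [neg_one_smul, sub_eq_add_neg]

theorem qC_val {B : Type} (a b : B) (v : B → M.E) (c : M.E) :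
    pv M v c (qC a b) = n2 M.τ (c * v a - v b * c) := by
  show n2 M.τ (c * v a + (-1 : ℂ) • (v b * c)) = _
  rw [neg_one_smul, sub_eq_add_neg]

theorem tp_qU (hW : PS M.τ W) : tp hW (qU (BB W)) = 0 := by
  refine tp_zero hW _ (Filter.Eventually.of_forall fun F => ?_)
  have h1 := qU_val (M := M) (B := BB W) Subtype.val (sw hW F)
  rw [(sw_props hW F).2.1, sub_self, M.trAlg.n2_zero] at h1
  exact h1

theorem tp_qC (hW : PS M.τ W) (k : κ) (a b : BB W) (ha : a.1 = pz W (k, 0))
    (hb : b.1 = pz W (k, 1)) : tp hW (qC a b) = 0 := by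
  refine tp_zero hW _ ((uf_mem k).mono fun F hF => ?_)
  have h1 := qC_val (M := M) a b Subtype.val (sw hW F)
  rw [ha, hb, (sw_props hW F).2.2 k hF, sub_self, M.trAlg.n2_zero] at h1
  exact h1

/-! ### the sequence -/

open Classical in
/-- the sequence: `Z_(k,1)` is replaced by `Z_(k,j+1)` -/
noncomputable def sq (W : VI (κ × ℕ) → M.E) (k : κ) (j : ℕ) (β : BB W) : M.E :=
  if β.1 = pz W (k, 1) then pz W (k, j + 1) else β.1

theorem sq_zero (k : κ) (β : BB W) : sq W k 0 β = β.1 := by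
  unfold sq
  split_ifs with h
  · exact h.symm
  · rfl

/-- Indiscernibility. -/
theorem sq_ind [Nonempty κ] (hM : Gen M W) (k : κ) (A : Set M.E) (hA : A ⊆ BB W)
    (hk : pz W (k, 1) ∉ A) (i : ℕ → ℕ) (hi : StrictMono i) (n : ℕ) (φ : Fm n)
    (s : Fin n → (ℕ × BB W) ⊕ A) :
    φ.val (str M) (fun m => Sum.elim (fun t => sq W k (i t.1) t.2) Subtype.val (s m)) =
      φ.val (str M) (fun m => Sum.elim (fun t => sq W k t.1 t.2) Subtype.val (s m)) := by
  classical
  -- the coordinate of a parameter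
  have hind : ∀ z ∈ BB W, ∃ p : κ × ℕ, z = pz W p ∧ p.2 ≤ 1 := by
    rintro z ⟨l, h | h⟩
    · exact ⟨(l, 0), h, by simp⟩
    · exact ⟨(l, 1), h, by simp⟩
  choose! ind h1 h2 using hind
  let par : (ℕ × BB W) ⊕ A → M.E := fun t => Sum.elim (fun u => u.2.1) (fun a => a.1) t
  have hpar : ∀ t, par t ∈ BB W := by
    rintro (u | a)
    · exact u.2.2
    · exact hA a.2
  let num : (ℕ × BB W) ⊕ A → ℕ := fun t => Sum.elim (fun u => u.1) (fun _ => 0) t
  let sp : (ℕ × BB W) ⊕ A → Prop := fun t => par t = pz W (k, 1)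
  let G : (ℕ → ℕ) → (ℕ × BB W) ⊕ A → κ × ℕ := fun f t =>
    if sp t then (k, f (num t) + 1) else ind (par t)
  have hval : ∀ (f : ℕ → ℕ) (t : (ℕ × BB W) ⊕ A),
      Sum.elim (fun u => sq W k (f u.1) u.2) Subtype.val t = pz W (G f t) := by
    intro f t
    rcases t with u | a
    · show sq W k (f u.1) u.2 = pz W (if u.2.1 = pz W (k, 1) then (k, f u.1 + 1) else ind u.2.1)
      unfold sq
      split_ifs with h
      · rfl
      · exact h1 _ u.2.2
    · show a.1 = pz W (if a.1 = pz W (k, 1) then (k, f 0 + 1) else ind a.1)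
      have ha : ¬ (a.1 = pz W (k, 1)) := fun h => hk (by rw [← h]; exact a.2)
      rw [if_neg ha]
      exact h1 _ (hA a.2)
  have hns : ∀ t, ¬ sp t → ∀ m, ind (par t) ≠ (k, m + 1) := by
    intro t ht m hm
    have e1 := h2 _ (hpar t)
    rw [hm] at e1
    have hm0 : m = 0 := by
      have : m + 1 ≤ 1 := e1
      omega
    apply ht
    have e2 := h1 _ (hpar t)
    rw [hm, hm0] at e2
    exact e2
  have key : ∀ f : ℕ → ℕ, Function.Injective f → ∀ t t', G f t = G f t' ↔
      (sp t ∧ sp t' ∧ num t = num t') ∨ (¬ sp t ∧ ¬ sp t' ∧ ind (par t) = ind (par t')) := by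
    intro f hf t t'
    show (if sp t then (k, f (num t) + 1) else ind (par t)) =
      (if sp t' then (k, f (num t') + 1) else ind (par t')) ↔ _
    by_cases a : sp t
    · by_cases b : sp t'
      · rw [if_pos a, if_pos b]
        constructor
        · intro h
          exact Or.inl ⟨a, b, hf (by simpa using (Prod.ext_iff.1 h).2)⟩
        · rintro (⟨_, _, h⟩ | ⟨h, _⟩)
          · rw [h]
          · exact absurd a h
      · rw [if_pos a, if_neg b]
        constructor
        · intro h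
          exact absurd h.symm (hns t' b _)
        · rintro (⟨_, h, _⟩ | ⟨h, _⟩)
          · exact absurd h b
          · exact absurd a h
    · by_cases b : sp t'
      · rw [if_neg a, if_pos b]
        constructor
        · intro h
          exact absurd h (hns t a _)
        · rintro (⟨h, _⟩ | ⟨_, h, _⟩)
          · exact absurd h a
          · exact absurd b h
      · rw [if_neg a, if_neg b]
        constructor
        · intro h
          exact Or.inr ⟨a, b, h⟩
        · rintro (⟨h, _⟩ | ⟨_, _, h⟩)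
          · exact absurd h a
          · exact h
  have e1 : (fun m => Sum.elim (fun u => sq W k (i u.1) u.2) Subtype.val (s m)) =
      fun m => W (Finsupp.single (G i (s m)) (0, 1)) := funext fun m => hval i (s m)
  have e2 : (fun m => Sum.elim (fun u => sq W k u.1 u.2) Subtype.val (s m)) =
      fun m => W (Finsupp.single (G id (s m)) (0, 1)) := funext fun m => hval id (s m)
  have : Infinite (κ × ℕ) := inferInstance
  refine (congrArg (φ.val (str M)) e1).trans (Eq.trans ?_ (congrArg (φ.val (str M)) e2).symm)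
  exact inv_single hM φ (fun _ => (0, 1)) (fun m => G i (s m)) (fun m => G id (s m)) fun m l => by
    rw [key i hi.injective, key id Function.injective_id]

/-- The core of the inconsistency. -/
theorem core (hW : PS M.τ W) (k : κ) (x : M.E) (hx : M.opNorm x ≤ 1)
    (w1 : n2 M.τ (x * star x - 1) < 1 / 4)
    (w2 : n2 M.τ (x * pz W (k, 0) - pz W (k, 1) * x) < 1 / 4)
    (w3 : n2 M.τ (x * pz W (k, 0) - pz W (k, 2) * x) < 1 / 4) : False := by
  have h := M.trAlg
  have hxs : M.opNorm (star x) ≤ 1 := by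
    have : M.opNorm (star x) = M.opNorm x := norm_star x
    rw [this]
    exact hx
  have hz1n : ∀ p, M.opNorm (pz W p) ≤ 1 := fun p => opNorm_unitary M (by
    rw [pz_adj hW, pz_sq hW])
  have d5 : n2 M.τ (pz W (k, 1) - pz W (k, 2)) ^ 2 = 2 := pz_dist hW (fun hh => by simp at hh)
  have t1 := hz1n (k, 1)
  have t2 := hz1n (k, 2)
  generalize (pz W (k, 1) : M.E) = z1 at *
  generalize (pz W (k, 2) : M.E) = z2 at *
  generalize (pz W (k, 0) : M.E) = z0 at *
  have d1 : n2 M.τ ((z1 - z2) * x) < 1 / 2 := by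
    have e : (z1 - z2) * x = (x * z0 - z2 * x) - (x * z0 - z1 * x) := by noncomm_ring
    rw [e]
    have := h.n2_sub_le (x * z0 - z2 * x) (x * z0 - z1 * x)
    linarith
  have d2 : n2 M.τ ((z1 - z2) * x * star x) < 1 / 2 := by
    have e := (M.n2_mul_le (star x) ((z1 - z2) * x)).2
    have e0 := n2_nonneg M.τ ((z1 - z2) * x)
    nlinarith
  have d3 : n2 M.τ ((z1 - z2) * (x * star x - 1)) ≤ 1 / 2 := by
    have e := (M.n2_mul_le (z1 - z2) (x * star x - 1)).1
    have e1 : M.opNorm (z1 - z2) ≤ 2 := by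
      have := norm_sub_le z1 z2
      have t1 : ‖z1‖ ≤ 1 := t1
      have t2 : ‖z2‖ ≤ 1 := t2
      show ‖z1 - z2‖ ≤ 2
      linarith
    have e0 := n2_nonneg M.τ (x * star x - 1)
    nlinarith
  have d4 : n2 M.τ (z1 - z2) < 1 := by
    have e : z1 - z2 = (z1 - z2) * x * star x - (z1 - z2) * (x * star x - 1) := by noncomm_ring
    have := h.n2_sub_le ((z1 - z2) * x * star x) ((z1 - z2) * (x * star x - 1))
    rw [← e] at this
    linarith
  have d6 := n2_nonneg M.τ (z1 - z2)
  nlinarith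

/-- Inconsistency. -/
theorem sq_incons (hW : PS M.τ W) (k : κ) (hcon : ∀ (L : List (ℕ × PFm (BB W))) (ε : ℝ), 0 < ε →
    ∃ c : M.E, M.opNorm c ≤ 1 ∧ ∀ q ∈ L, |pv M (sq W k q.1) c q.2 - tp hW q.2| < ε) : False := by
  let a : BB W := ⟨pz W (k, 0), k, Or.inl rfl⟩
  let b : BB W := ⟨pz W (k, 1), k, Or.inr rfl⟩
  obtain ⟨c, hc1, hc⟩ := hcon [(0, qU (BB W)), (0, qC a b), (1, qC a b)] (1 / 4) (by norm_num)
  have hab : a.1 ≠ pz W (k, 1) := fun hh => by
    have := pz_inj hW (hh : pz W (k, 0) = pz W (k, 1))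
    simp at this
  have sa : ∀ j, sq W k j a = pz W (k, 0) := fun j => by
    unfold sq
    rw [if_neg hab]
  have sb : ∀ j, sq W k j b = pz W (k, j + 1) := fun j => by
    unfold sq
    rw [if_pos rfl]
  have u1 := hc (0, qU (BB W)) (by simp)
  have u2 := hc (0, qC a b) (by simp)
  have u3 := hc (1, qC a b) (by simp)
  rw [qU_val, tp_qU, sub_zero] at u1
  rw [qC_val, tp_qC hW k a b rfl rfl, sub_zero, sa, sb] at u2 u3
  exact core hW k c hc1 (abs_lt.1 u1).2 (abs_lt.1 u2).2 (abs_lt.1 u3).2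

theorem isElementary_id (M : Str) : IsElementary M M id := fun _ _ _ => rfl

/-- a parameter outside of a separable subset -/
theorem exists_out [Uncountable κ] (hW : PS M.τ W) (A : Set M.E) (hA : A ⊆ BB W)
    (hs : ∃ D ⊆ A, D.Countable ∧ ∀ a ∈ A, ∀ ε : ℝ, 0 < ε → ∃ d ∈ D, n2 M.τ (a - d) < ε) :
    ∃ k : κ, pz W (k, 1) ∉ A := by
  by_contra hne
  push Not at hne
  obtain ⟨D, hDA, hD, hd⟩ := hs
  have h1 : ∀ k : κ, pz W (k, 1) ∈ D := by
    intro k
    obtain ⟨d, hdD, hd1⟩ := hd _ (hne k) 1 one_pos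
    obtain ⟨l, hl⟩ : ∃ p, d = pz W p := by
      obtain ⟨m, h | h⟩ := hA (hDA hdD)
      · exact ⟨_, h⟩
      · exact ⟨_, h⟩
    by_cases hp : (k, 1) = l
    · rw [hp, ← hl]
      exact hdD
    · have h2 := pz_dist hW hp
      rw [hl] at hd1
      have h4 := n2_nonneg M.τ (pz W (k, 1) - pz W l)
      nlinarith
  have hc : Countable D := hD.to_subtype
  have : Countable κ := Function.Injective.countable (f := fun k : κ => (⟨_, h1 k⟩ : D)) (by
    intro k l hkl
    have h2 : pz W (k, 1) = pz W (l, 1) := congrArg Subtype.val hkl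
    exact (Prod.ext_iff.1 (pz_inj hW h2)).1)
  exact not_countable (α := κ) this

end

/-- The theory of the hyperfinite II_1 factor is not simple. -/
theorem not_simple (R : Str) (hR : R.IsHyperfinite) : ¬ IsSimple R := by
  intro hsim
  obtain ⟨R', rfl⟩ := exists_tvn R hR.1
  obtain ⟨V, hV⟩ := gen_hyp R' (hyp_of R' hR)
  obtain ⟨M, W, hM⟩ := exists_gen (ℝ × ℕ)
  obtain ⟨A, hA, hs, hdiv⟩ := hsim (str M) (isTVN M) (elemEq hM hV) 1 (BB W) (tp hM.ps)
    (tp_isType hM.ps)
  have hs' : ∃ D ⊆ A, D.Countable ∧ ∀ a ∈ A, ∀ ε : ℝ, 0 < ε → ∃ d ∈ D,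
      (str M).norm2 ((str M).sub a d) < ε := hs
  obtain ⟨k, hk⟩ := exists_out hM.ps A hA (by
    obtain ⟨D, h1, h2, h3⟩ := hs'
    refine ⟨D, h1, h2, fun a ha ε hε => ?_⟩
    obtain ⟨d, hd, hd2⟩ := h3 a ha ε hε
    refine ⟨d, hd, ?_⟩
    have e : (str M).sub a d = (fun x y : M.E => x - y) a d := sub_eq M a d
    rw [e] at hd2
    exact hd2)
  refine hdiv ⟨str M, id, sq W k, isTVN M, isElementary_id _, fun β => sq_zero k β, ?_, ?_⟩
  · rw [Set.image_id]
    exact sq_ind hM k A hA hk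
  · intro hcon
    refine sq_incons hM.ps k fun L ε hε => ?_
    obtain ⟨c, hc⟩ := hcon L ε hε
    refine ⟨c.1, ?_, hc⟩
    have := c.2
    exact this.trans (by simp)

end Pool.Agent.W887.NS
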